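import Mathlib

/-!
# The permutation pattern poset

Permutations are elements of the disjoint union of the groups of permutations of
`{0, ..., n - 1}`; the order is pattern containment.  For a finite set of points in a
product of two linear orders (given by two injective keys) we define its pattern.
-/

namespace PP

open Function

/-- a finite permutation -/
@[ext] structure PPerm : Type where
  /-- the length -/
  n : ℕ
  /-- the permutation -/
  p : Equiv.Perm (Fin n)

/-- `f` is an occurrence of `σ` in `π` -/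
def PPerm.Occ (σ π : PPerm) (f : Fin σ.n → Fin π.n) : Prop :=
  StrictMono f ∧ ∀ i j, σ.p i < σ.p j → π.p (f i) < π.p (f j)

theorem strictMono_fin_eq {n : ℕ} (f : Fin n → Fin n) (hf : StrictMono f) : f = id := by
  have h : (OrderEmbedding.ofStrictMono f hf) = (RelEmbedding.refl _ : Fin n ↪o Fin n) := by
    have h1 := Finite.injective_iff_bijective.1 hf.injective
    let e : Fin n ≃o Fin n := StrictMono.orderIsoOfSurjective f hf h1.2
    have h2 : e = OrderIso.refl _ := Subsingleton.elim _ _
    ext i
    have h3 := congrArg (fun e : Fin n ≃o Fin n => e i) h2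
    exact congrArg Fin.val h3
  funext i
  exact congrArg (fun g : Fin n ↪o Fin n => g i) h

theorem eq_of_occ {σ π : PPerm} {f : Fin σ.n → Fin π.n} (h : PPerm.Occ σ π f)
    (hn : π.n ≤ σ.n) : σ = π := by
  obtain ⟨n, p⟩ := σ
  obtain ⟨m, q⟩ := π
  obtain ⟨h1, h2⟩ := h
  simp only at f h1 h2 hn
  have h3 : n ≤ m := by
    have := Fintype.card_le_of_injective f h1.injective
    simpa using this
  obtain rfl : n = m := le_antisymm h3 hn
  have h4 := strictMono_fin_eq f h1
  subst h4
  have h5 : StrictMono (fun i => q (p.symm i)) := by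
    intro i j hij
    refine h2 (p.symm i) (p.symm j) ?_
    simpa using hij
  have h6 := strictMono_fin_eq _ h5
  have h7 : p = q := by
    ext i
    have h8 := congrFun h6 (p i)
    simp only [Equiv.symm_apply_apply, id] at h8
    rw [h8]
  rw [h7]

instance : PartialOrder PPerm where
  le σ π := ∃ f, PPerm.Occ σ π f
  le_refl σ := ⟨id, strictMono_id, fun _ _ h => h⟩
  le_trans := by
    rintro σ π τ ⟨f, hf1, hf2⟩ ⟨g, hg1, hg2⟩
    exact ⟨g ∘ f, hg1.comp hf1, fun i j h => hg2 _ _ (hf2 _ _ h)⟩
  le_antisymm := by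
    rintro σ π ⟨f, hf⟩ ⟨g, hg⟩
    refine eq_of_occ hf ?_
    have := Fintype.card_le_of_injective g hg.1.injective
    simpa using this

theorem le_def {σ π : PPerm} : σ ≤ π ↔ ∃ f, PPerm.Occ σ π f := Iff.rfl

theorem n_le {σ π : PPerm} (h : σ ≤ π) : σ.n ≤ π.n := by
  obtain ⟨f, hf⟩ := h
  have := Fintype.card_le_of_injective f hf.1.injective
  simpa using this

theorem eq_of_le {σ π : PPerm} (h : σ ≤ π) (hn : π.n ≤ σ.n) : σ = π := by
  obtain ⟨f, hf⟩ := h
  exact eq_of_occ hf hn

theorem lt_iff {σ π : PPerm} : σ < π ↔ σ ≤ π ∧ σ.n < π.n := by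
  constructor
  · intro h
    refine ⟨h.le, ?_⟩
    by_contra h1
    exact h.ne (eq_of_le h.le (not_lt.1 h1))
  · rintro ⟨h, h1⟩
    refine lt_of_le_of_ne h ?_
    rintro rfl
    exact lt_irrefl _ h1

theorem n_lt {σ π : PPerm} (h : σ < π) : σ.n < π.n := (lt_iff.1 h).2

/-! ### Patterns of sets of points -/

section config

variable {X α β : Type} [LinearOrder α] [LinearOrder β]

/-- a finite set is equivalent to its image under an injective map -/
noncomputable def mapE (k : X → α) (hk : Injective k) (S : Finset X) :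
    S ≃ (S.map ⟨k, hk⟩ : Finset α) :=
  Equiv.ofBijective (fun a => ⟨k a, Finset.mem_map_of_mem _ a.2⟩) (by
    constructor
    · intro a b h
      exact Subtype.ext (hk (congrArg Subtype.val h))
    · rintro ⟨_, hb⟩
      obtain ⟨a, ha, rfl⟩ := Finset.mem_map.1 hb
      exact ⟨⟨a, ha⟩, rfl⟩)

/-- the elements of `S` in the order of the key `k` -/
noncomputable def rk (k : X → α) (hk : Injective k) (S : Finset X) : Fin S.card ≃ S :=
  ((S.map ⟨k, hk⟩).orderIsoOfFin (S.card_map _)).toEquiv.trans (mapE k hk S).symm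

theorem key_rk (k : X → α) (hk : Injective k) (S : Finset X) (i : Fin S.card) :
    k (rk k hk S i) = (S.map ⟨k, hk⟩).orderIsoOfFin (S.card_map _) i := by
  have h := congrArg Subtype.val ((mapE k hk S).apply_symm_apply
    (((S.map ⟨k, hk⟩).orderIsoOfFin (S.card_map _)) i))
  exact h

theorem rk_lt (k : X → α) (hk : Injective k) (S : Finset X) (i j : Fin S.card) :
    k (rk k hk S i) < k (rk k hk S j) ↔ i < j := by
  rw [key_rk k hk S i, key_rk k hk S j]
  exact ((S.map ⟨k, hk⟩).orderIsoOfFin (S.card_map _)).lt_iff_lt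

theorem rk_symm_lt (k : X → α) (hk : Injective k) (S : Finset X) (a b : S) :
    (rk k hk S).symm a < (rk k hk S).symm b ↔ k a < k b := by
  rw [← rk_lt k hk S, Equiv.apply_symm_apply, Equiv.apply_symm_apply]

variable (kx : X → α) (ky : X → β) (hx : Injective kx) (hy : Injective ky)

/-- the pattern of a set of points -/
noncomputable def patt (S : Finset X) : PPerm := ⟨S.card, (rk kx hx S).trans (rk ky hy S).symm⟩

@[simp] theorem patt_n (S : Finset X) : (patt kx ky hx hy S).n = S.card := rfl

theorem patt_p_lt (S : Finset X) (i j : Fin S.card) :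
    (patt kx ky hx hy S).p i < (patt kx ky hx hy S).p j ↔
      ky (rk kx hx S i) < ky (rk kx hx S j) := by
  change (rk ky hy S).symm (rk kx hx S i) < (rk ky hy S).symm (rk kx hx S j) ↔ _
  exact rk_symm_lt ky hy S _ _

section two

variable {X' α' β' : Type} [LinearOrder α'] [LinearOrder β'] (kx' : X' → α') (ky' : X' → β')
  (hx' : Injective kx') (hy' : Injective ky')

/-- containment of patterns of sets of points -/
theorem patt_le_iff (S : Finset X) (S' : Finset X') :
    patt kx ky hx hy S ≤ patt kx' ky' hx' hy' S' ↔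
      ∃ g : S → S', (∀ a b : S, kx a < kx b → kx' (g a) < kx' (g b)) ∧
        ∀ a b : S, ky a < ky b → ky' (g a) < ky' (g b) := by
  constructor
  · rintro ⟨f, hf1, hf2⟩
    refine ⟨fun a => rk kx' hx' S' (f ((rk kx hx S).symm a)), ?_, ?_⟩
    · intro a b h
      refine (rk_lt kx' hx' S' _ _).2 (hf1 ?_)
      exact (rk_symm_lt kx hx S a b).2 h
    · intro a b h
      have h1 := hf2 ((rk kx hx S).symm a) ((rk kx hx S).symm b) (by
        refine (patt_p_lt kx ky hx hy S _ _).2 ?_
        rw [Equiv.apply_symm_apply, Equiv.apply_symm_apply]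
        exact h)
      exact (patt_p_lt kx' ky' hx' hy' S' _ _).1 h1
  · rintro ⟨g, hg1, hg2⟩
    refine ⟨fun i => (rk kx' hx' S').symm (g (rk kx hx S i)), ?_, ?_⟩
    · intro i j h
      refine (rk_symm_lt kx' hx' S' _ _).2 (hg1 _ _ ?_)
      exact (rk_lt kx hx S i j).2 h
    · intro i j h
      refine (patt_p_lt kx' ky' hx' hy' S' _ _).2 ?_
      rw [Equiv.apply_symm_apply, Equiv.apply_symm_apply]
      exact hg2 _ _ ((patt_p_lt kx ky hx hy S _ _).1 h)

/-- equality of patterns of sets of points -/
theorem patt_eq_iff (S : Finset X) (S' : Finset X') :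
    patt kx ky hx hy S = patt kx' ky' hx' hy' S' ↔
      ∃ g : S ≃ S', (∀ a b : S, kx a < kx b ↔ kx' (g a) < kx' (g b)) ∧
        ∀ a b : S, ky a < ky b ↔ ky' (g a) < ky' (g b) := by
  constructor
  · intro h
    obtain ⟨g, hg1, hg2⟩ := (patt_le_iff kx ky hx hy kx' ky' hx' hy' S S').1 h.le
    have hc : S.card = S'.card := congrArg PPerm.n h
    have hinj : Injective g := by
      intro a b hab
      by_contra hne
      have hne' : kx a ≠ kx b := fun h1 => hne (Subtype.ext (hx h1))
      rcases lt_or_gt_of_ne hne' with h1 | h1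
      · have h2 := hg1 a b h1
        rw [hab] at h2
        exact lt_irrefl _ h2
      · have h2 := hg1 b a h1
        rw [hab] at h2
        exact lt_irrefl _ h2
    have hbij : Bijective g := by
      rw [Fintype.bijective_iff_injective_and_card]
      exact ⟨hinj, by simpa using hc⟩
    refine ⟨Equiv.ofBijective g hbij, ?_, ?_⟩
    · intro a b
      refine ⟨hg1 a b, fun h1 => ?_⟩
      by_contra h2
      rcases (not_lt.1 h2).lt_or_eq with h3 | h3
      · exact lt_asymm h1 (hg1 b a h3)
      · have h4 : b = a := Subtype.ext (hx h3)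
        rw [h4] at h1
        exact lt_irrefl _ h1
    · intro a b
      refine ⟨hg2 a b, fun h1 => ?_⟩
      by_contra h2
      rcases (not_lt.1 h2).lt_or_eq with h3 | h3
      · exact lt_asymm h1 (hg2 b a h3)
      · have h4 : b = a := Subtype.ext (hy h3)
        rw [h4] at h1
        exact lt_irrefl _ h1
  · rintro ⟨g, hg1, hg2⟩
    refine eq_of_le ((patt_le_iff kx ky hx hy kx' ky' hx' hy' S S').2
      ⟨g, fun a b => (hg1 a b).1, fun a b => (hg2 a b).1⟩) ?_
    have h := Fintype.card_congr g
    simp only [Fintype.card_coe] at h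
    exact h.ge

end two

theorem patt_mono {S S' : Finset X} (h : S ⊆ S') :
    patt kx ky hx hy S ≤ patt kx ky hx hy S' :=
  (patt_le_iff kx ky hx hy kx ky hx hy S S').2
    ⟨fun a => ⟨a, h a.2⟩, fun _ _ h => h, fun _ _ h => h⟩

/-- every pattern below the pattern of `S` is the pattern of a subset of `S` -/
theorem exists_sub {S : Finset X} {τ : PPerm} (h : τ ≤ patt kx ky hx hy S) :
    ∃ S₀ ⊆ S, patt kx ky hx hy S₀ = τ := by
  classical
  obtain ⟨f, hf1, hf2⟩ := h
  let g : Fin τ.n ↪ X := ⟨fun i => (rk kx hx S (f i) : X), by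
    intro i j hij
    exact hf1.injective ((rk kx hx S).injective (Subtype.ext hij))⟩
  have hgS : ∀ i, g i ∈ S := fun i => (rk kx hx S (f i)).2
  refine ⟨Finset.univ.map g, ?_, ?_⟩
  · intro x hx
    obtain ⟨i, -, rfl⟩ := Finset.mem_map.1 hx
    exact hgS i
  · symm
    refine eq_of_le ⟨fun i => (rk kx hx (Finset.univ.map g)).symm
      ⟨g i, Finset.mem_map_of_mem g (Finset.mem_univ i)⟩, ?_, ?_⟩ ?_
    · intro i j hij
      refine (rk_symm_lt kx hx _ _ _).2 ?_
      exact (rk_lt kx hx S _ _).2 (hf1 hij)
    · intro i j hij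
      refine (patt_p_lt kx ky hx hy _ _ _).2 ?_
      rw [Equiv.apply_symm_apply, Equiv.apply_symm_apply]
      exact (patt_p_lt kx ky hx hy S _ _).1 (hf2 i j hij)
    · simp

/-- a permutation is the pattern of its graph -/
theorem patt_self (π : PPerm) : patt (X := Fin π.n) id π.p injective_id π.p.injective
    Finset.univ = π := by
  refine (eq_of_le ⟨fun i => (rk (X := Fin π.n) id injective_id Finset.univ).symm
    ⟨i, Finset.mem_univ i⟩, ?_, ?_⟩ ?_).symm
  · intro i j hij
    exact (rk_symm_lt (X := Fin π.n) id injective_id _ _ _).2 hij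
  · intro i j hij
    refine (patt_p_lt (X := Fin π.n) id π.p injective_id π.p.injective _ _ _).2 ?_
    rw [Equiv.apply_symm_apply, Equiv.apply_symm_apply]
    exact hij
  · simp

end config

end PP
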