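import Mathlib
import Pool.Agent.PP.Pattern

/-!
# Order preserving bijections between large subsets move points by small rank distances
-/

namespace PP

open Function

variable {X : Type} [Fintype X] [DecidableEq X]

/-- Let `g` be an order preserving bijection between the complements of two sets with at
most `r` elements.  Then at most `r` elements lie between `p` and `g p`. -/
theorem rank_close (k : X → ℕ) (U U' : Finset X) (r : ℕ) (hU : U.card ≤ r)
    (g : (Uᶜ : Finset X) ≃ (U'ᶜ : Finset X))
    (hg : ∀ a b : (Uᶜ : Finset X), k a < k b ↔ k (g a) < k (g b)) (p : (Uᶜ : Finset X)) :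
    (Finset.univ.filter (fun s : X => k (g p) ≤ k s ∧ k s < k p)).card ≤ r := by
  classical
  -- the elements of the first complement below `p` and of the second below `g p`
  have h1 : ((Uᶜ : Finset X).filter (fun s => k s < k p)).card =
      ((U'ᶜ : Finset X).filter (fun s => k s < k (g p))).card := by
    refine Finset.card_bij (fun s hs => (g ⟨s, (Finset.mem_filter.1 hs).1⟩ : X)) ?_ ?_ ?_
    · intro s hs
      refine Finset.mem_filter.2 ⟨(g _).2, ?_⟩
      exact (hg ⟨s, (Finset.mem_filter.1 hs).1⟩ p).1 (Finset.mem_filter.1 hs).2
    · intro s hs t ht hst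
      exact congrArg Subtype.val (g.injective (Subtype.ext hst))
    · intro t ht
      obtain ⟨h2, h3⟩ := Finset.mem_filter.1 ht
      refine ⟨g.symm ⟨t, h2⟩, ?_, ?_⟩
      · refine Finset.mem_filter.2 ⟨(g.symm _).2, ?_⟩
        rw [hg (g.symm ⟨t, h2⟩) p, Equiv.apply_symm_apply]
        exact h3
      · simp
  by_cases hle : k p ≤ k (g p)
  · have h2 : Finset.univ.filter (fun s : X => k (g p) ≤ k s ∧ k s < k p) = ∅ := by
      refine Finset.filter_eq_empty_iff.2 ?_
      rintro s - ⟨h3, h4⟩
      omega
    rw [h2]
    simp
  · have hlt : k (g p) < k p := not_le.1 hle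
    have h2 : Finset.univ.filter (fun s : X => k s < k p) =
        Finset.univ.filter (fun s : X => k s < k (g p)) ∪
          Finset.univ.filter (fun s : X => k (g p) ≤ k s ∧ k s < k p) := by
      ext s
      simp only [Finset.mem_filter, Finset.mem_univ, true_and, Finset.mem_union]
      omega
    have h3 : Disjoint (Finset.univ.filter (fun s : X => k s < k (g p)))
        (Finset.univ.filter (fun s : X => k (g p) ≤ k s ∧ k s < k p)) := by
      rw [Finset.disjoint_left]
      intro s hs hs'
      have h4 := (Finset.mem_filter.1 hs).2
      have h5 := (Finset.mem_filter.1 hs').2.1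
      omega
    have h4 := congrArg Finset.card h2
    rw [Finset.card_union_of_disjoint h3] at h4
    have h5 : (Finset.univ.filter (fun s : X => k s < k p)).card ≤
        ((Uᶜ : Finset X).filter (fun s => k s < k p)).card + U.card := by
      have h6 : Finset.univ.filter (fun s : X => k s < k p) ⊆
          ((Uᶜ : Finset X).filter (fun s => k s < k p)) ∪ U := by
        intro s hs
        by_cases hsU : s ∈ U
        · exact Finset.mem_union_right _ hsU
        · exact Finset.mem_union_left _ (Finset.mem_filter.2
            ⟨Finset.mem_compl.2 hsU, (Finset.mem_filter.1 hs).2⟩)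
      exact (Finset.card_le_card h6).trans (Finset.card_union_le _ _)
    have h7 : ((U'ᶜ : Finset X).filter (fun s => k s < k (g p))).card ≤
        (Finset.univ.filter (fun s : X => k s < k (g p))).card :=
      Finset.card_le_card (Finset.filter_subset_filter _ (Finset.subset_univ _))
    omega

/-- the other direction -/
theorem rank_close' (k : X → ℕ) (U U' : Finset X) (r : ℕ) (hU' : U'.card ≤ r)
    (g : (Uᶜ : Finset X) ≃ (U'ᶜ : Finset X))
    (hg : ∀ a b : (Uᶜ : Finset X), k a < k b ↔ k (g a) < k (g b)) (p : (Uᶜ : Finset X)) :
    (Finset.univ.filter (fun s : X => k p ≤ k s ∧ k s < k (g p))).card ≤ r := by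
  have h := rank_close k U' U r hU' g.symm (fun a b => by
    rw [hg (g.symm a) (g.symm b), Equiv.apply_symm_apply, Equiv.apply_symm_apply]) (g p)
  rw [Equiv.symm_apply_apply] at h
  exact h

end PP
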