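import Mathlib
import Pool.Agent.PP.Rank

/-!
# The board theorem

A finite set of points lies in the cells of a board with columns and rows; each column has
an order (left to right), each row has an order (bottom to top).  A rigid frame turns the
board into a permutation such that, after deleting few points, isomorphisms of patterns are
the same as isomorphisms of boards.
-/

namespace PP

open Function

/-- a board: each point has a column, a row, a place in the column order and a place in the
row order -/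
structure Board (X : Type) : Type where
  /-- column -/
  col : X → ℕ
  /-- row -/
  row : X → ℕ
  /-- place from left to right inside the column -/
  kx : X → ℕ
  /-- place from bottom to top inside the row -/
  ky : X → ℕ
  /-- number of columns -/
  m : ℕ
  /-- number of rows -/
  n : ℕ
  /-- bound for the places -/
  M : ℕ
  col_lt : ∀ x, col x < m
  row_lt : ∀ x, row x < n
  kx_lt : ∀ x, kx x < M
  ky_lt : ∀ x, ky x < M
  col_inj : ∀ x y, col x = col y → kx x = kx y → x = y
  row_inj : ∀ x y, row x = row y → ky x = ky y → x = y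

variable {X : Type}

/-- isomorphism of boards after deleting `Q` and `Q'` -/
def GIso (B : Board X) (Q Q' : Finset X) : Prop :=
  ∃ φ : {x // x ∉ Q} ≃ {x // x ∉ Q'},
    (∀ x, B.col (φ x) = B.col x) ∧ (∀ x, B.row (φ x) = B.row x) ∧
    (∀ x y : {x // x ∉ Q}, B.col x = B.col y → (B.kx x < B.kx y ↔ B.kx (φ x) < B.kx (φ y))) ∧
    (∀ x y : {x // x ∉ Q}, B.row x = B.row y → (B.ky x < B.ky y ↔ B.ky (φ x) < B.ky (φ y)))

namespace Board

variable (B : Board X) (r : ℕ)

/-- size of the frame -/
def L : ℕ := B.m + B.n + 4 * r + 4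

/-- width of a strip -/
def W : ℕ := B.M + B.L r

/-- the points together with the frame -/
abbrev Pt : Type := X ⊕ (Fin (B.L r) × Fin (B.L r))

/-- horizontal coordinates -/
def KX : B.Pt r → ℕ
  | Sum.inl x => (2 * B.col x + 1) * B.W r + B.kx x
  | Sum.inr p => (2 * (p.1 : ℕ)) * B.W r + p.2

/-- vertical coordinates -/
def KY : B.Pt r → ℕ
  | Sum.inl x => (2 * (r + 1 + B.row x) + 1) * B.W r + B.ky x
  | Sum.inr p => (2 * (p.2 : ℕ)) * B.W r + p.1

theorem lex_lt {w a b c d : ℕ} (hb : b < w) (hd : d < w) :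
    a * w + b < c * w + d ↔ a < c ∨ a = c ∧ b < d := by
  constructor
  · intro h
    rcases lt_trichotomy a c with h1 | h1 | h1
    · exact Or.inl h1
    · subst h1
      exact Or.inr ⟨rfl, by omega⟩
    · exfalso
      have h2 : (c + 1) * w ≤ a * w := Nat.mul_le_mul_right w h1
      rw [Nat.add_mul, Nat.one_mul] at h2
      omega
  · rintro (h | ⟨rfl, h⟩)
    · have h2 : (a + 1) * w ≤ c * w := Nat.mul_le_mul_right w h
      rw [Nat.add_mul, Nat.one_mul] at h2
      omega
    · omega

theorem lex_le {w a b c d : ℕ} (hb : b < w) (hd : d < w) :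
    a * w + b ≤ c * w + d ↔ a < c ∨ a = c ∧ b ≤ d := by
  rw [← not_lt, lex_lt hd hb]
  omega

theorem lex_eq {w a b c d : ℕ} (hb : b < w) (hd : d < w) (h : a * w + b = c * w + d) :
    a = c ∧ b = d := by
  have h1 := (lex_le hb hd).1 h.le
  have h2 := (lex_le hd hb).1 h.ge
  omega

variable {B r}

theorem frame_lt (a : Fin (B.L r)) : (a : ℕ) < B.W r := by
  have := a.2
  unfold W
  omega

theorem kx_lt_W (x : X) : B.kx x < B.W r := by
  have := B.kx_lt x
  unfold W
  omega

theorem ky_lt_W (x : X) : B.ky x < B.W r := by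
  have := B.ky_lt x
  unfold W
  omega

theorem KX_inj : Injective (B.KX r) := by
  rintro (x | ⟨a, b⟩) (y | ⟨c, d⟩) h
  · obtain ⟨h1, h2⟩ := lex_eq (kx_lt_W x) (kx_lt_W y) h
    rw [B.col_inj x y (by omega) h2]
  · obtain ⟨h1, h2⟩ := lex_eq (kx_lt_W x) (frame_lt d) h
    omega
  · obtain ⟨h1, h2⟩ := lex_eq (frame_lt b) (kx_lt_W y) h
    simp only at h1
    omega
  · obtain ⟨h1, h2⟩ := lex_eq (frame_lt b) (frame_lt d) h
    simp only at h1 h2
    have h3 : a = c := Fin.ext (by omega)
    have h4 : b = d := Fin.ext h2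
    rw [h3, h4]

theorem KY_inj : Injective (B.KY r) := by
  rintro (x | ⟨a, b⟩) (y | ⟨c, d⟩) h
  · obtain ⟨h1, h2⟩ := lex_eq (ky_lt_W x) (ky_lt_W y) h
    rw [B.row_inj x y (by omega) h2]
  · obtain ⟨h1, h2⟩ := lex_eq (ky_lt_W x) (frame_lt c) h
    omega
  · obtain ⟨h1, h2⟩ := lex_eq (frame_lt a) (ky_lt_W y) h
    simp only at h1
    omega
  · obtain ⟨h1, h2⟩ := lex_eq (frame_lt a) (frame_lt c) h
    simp only at h1 h2
    have h3 : b = d := Fin.ext (by omega)
    have h4 : a = c := Fin.ext h2
    rw [h3, h4]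

theorem KX_frame_point (a b : Fin (B.L r)) (x : X) :
    B.KX r (Sum.inr (a, b)) < B.KX r (Sum.inl x) ↔ (a : ℕ) ≤ B.col x := by
  change (2 * (a : ℕ)) * B.W r + b < (2 * B.col x + 1) * B.W r + B.kx x ↔ _
  rw [lex_lt (frame_lt b) (kx_lt_W x)]
  omega

theorem KX_point_frame (a b : Fin (B.L r)) (x : X) :
    B.KX r (Sum.inl x) < B.KX r (Sum.inr (a, b)) ↔ B.col x < (a : ℕ) := by
  change (2 * B.col x + 1) * B.W r + B.kx x < (2 * (a : ℕ)) * B.W r + b ↔ _
  rw [lex_lt (kx_lt_W x) (frame_lt b)]
  omega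

theorem KX_point (x y : X) :
    B.KX r (Sum.inl x) < B.KX r (Sum.inl y) ↔
      B.col x < B.col y ∨ B.col x = B.col y ∧ B.kx x < B.kx y := by
  change (2 * B.col x + 1) * B.W r + B.kx x < (2 * B.col y + 1) * B.W r + B.kx y ↔ _
  rw [lex_lt (kx_lt_W x) (kx_lt_W y)]
  omega

theorem KX_frame (a b c d : Fin (B.L r)) :
    B.KX r (Sum.inr (a, b)) < B.KX r (Sum.inr (c, d)) ↔
      (a : ℕ) < c ∨ (a : ℕ) = c ∧ (b : ℕ) < d := by
  change (2 * (a : ℕ)) * B.W r + b < (2 * (c : ℕ)) * B.W r + d ↔ _
  rw [lex_lt (frame_lt b) (frame_lt d)]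
  omega

theorem KY_frame_point (a b : Fin (B.L r)) (x : X) :
    B.KY r (Sum.inr (a, b)) < B.KY r (Sum.inl x) ↔ (b : ℕ) ≤ r + 1 + B.row x := by
  change (2 * (b : ℕ)) * B.W r + a < (2 * (r + 1 + B.row x) + 1) * B.W r + B.ky x ↔ _
  rw [lex_lt (frame_lt a) (ky_lt_W x)]
  omega

theorem KY_point_frame (a b : Fin (B.L r)) (x : X) :
    B.KY r (Sum.inl x) < B.KY r (Sum.inr (a, b)) ↔ r + 1 + B.row x < (b : ℕ) := by
  change (2 * (r + 1 + B.row x) + 1) * B.W r + B.ky x < (2 * (b : ℕ)) * B.W r + a ↔ _
  rw [lex_lt (ky_lt_W x) (frame_lt a)]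
  omega

theorem KY_point (x y : X) :
    B.KY r (Sum.inl x) < B.KY r (Sum.inl y) ↔
      B.row x < B.row y ∨ B.row x = B.row y ∧ B.ky x < B.ky y := by
  change (2 * (r + 1 + B.row x) + 1) * B.W r + B.ky x <
    (2 * (r + 1 + B.row y) + 1) * B.W r + B.ky y ↔ _
  rw [lex_lt (ky_lt_W x) (ky_lt_W y)]
  omega

theorem KY_frame (a b c d : Fin (B.L r)) :
    B.KY r (Sum.inr (a, b)) < B.KY r (Sum.inr (c, d)) ↔
      (b : ℕ) < d ∨ (b : ℕ) = d ∧ (a : ℕ) < c := by
  change (2 * (b : ℕ)) * B.W r + a < (2 * (d : ℕ)) * B.W r + c ↔ _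
  rw [lex_lt (frame_lt a) (frame_lt c)]
  omega

/-! ### Counting frame points between two points -/

section count

/-- many frame points with first coordinate `c` and second coordinate in `[u, v)` -/
theorem count_x [Fintype X] (P : B.Pt r → Prop) [DecidablePred P] (c : ℕ) (hc : c < B.L r) (u v : ℕ)
    (hv : v ≤ B.L r)
    (h : ∀ b : Fin (B.L r), u ≤ (b : ℕ) → (b : ℕ) < v → P (Sum.inr (⟨c, hc⟩, b))) :
    v - u ≤ (Finset.univ.filter P).card := by
  have h1 : ((Finset.univ : Finset (Fin (v - u)))).card ≤ (Finset.univ.filter P).card := by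
    refine Finset.card_le_card_of_injOn
      (fun i => Sum.inr (⟨c, hc⟩, ⟨u + i, by have := i.2; omega⟩)) ?_ ?_
    · intro i _
      refine Finset.mem_coe.2 (Finset.mem_filter.2 ⟨Finset.mem_univ _, h _ ?_ ?_⟩)
      · simp
      · have := i.2
        simp only
        omega
    · intro i _ j _ hij
      have h2 := (Prod.mk.inj (Sum.inr_injective hij)).2
      have h3 := congrArg Fin.val h2
      simp only at h3
      exact Fin.ext (by omega)
  simpa using h1

theorem count_y [Fintype X] (P : B.Pt r → Prop) [DecidablePred P] (c : ℕ) (hc : c < B.L r) (u v : ℕ)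
    (hv : v ≤ B.L r)
    (h : ∀ a : Fin (B.L r), u ≤ (a : ℕ) → (a : ℕ) < v → P (Sum.inr (a, ⟨c, hc⟩))) :
    v - u ≤ (Finset.univ.filter P).card := by
  have h1 : ((Finset.univ : Finset (Fin (v - u)))).card ≤ (Finset.univ.filter P).card := by
    refine Finset.card_le_card_of_injOn
      (fun i => Sum.inr (⟨u + i, by have := i.2; omega⟩, ⟨c, hc⟩)) ?_ ?_
    · intro i _
      refine Finset.mem_coe.2 (Finset.mem_filter.2 ⟨Finset.mem_univ _, h _ ?_ ?_⟩)
      · simp
      · have := i.2
        simp only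
        omega
    · intro i _ j _ hij
      have h2 := (Prod.mk.inj (Sum.inr_injective hij)).1
      have h3 := congrArg Fin.val h2
      simp only at h3
      exact Fin.ext (by omega)
  simpa using h1

/-- horizontal distance at most `r` between a frame point and another point -/
theorem near_x [Fintype X] (a b : Fin (B.L r)) (q : B.Pt r)
    (h1 : (Finset.univ.filter (fun s : B.Pt r =>
      B.KX r (Sum.inr (a, b)) ≤ B.KX r s ∧ B.KX r s < B.KX r q)).card ≤ r)
    (h2 : (Finset.univ.filter (fun s : B.Pt r =>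
      B.KX r q ≤ B.KX r s ∧ B.KX r s < B.KX r (Sum.inr (a, b)))).card ≤ r) :
    (∀ x, q = Sum.inl x → B.L r ≤ b + r ∨ (b : ℕ) ≤ r) ∧
    ∀ c d, q = Sum.inr (c, d) → a = c ∨ (B.L r ≤ b + r ∧ (d : ℕ) ≤ r) ∨
      (B.L r ≤ d + r ∧ (b : ℕ) ≤ r) := by
  have hL : r < B.L r := by unfold L; omega
  constructor
  · rintro x rfl
    have hcL : B.col x + 1 < B.L r := by
      have := B.col_lt x
      unfold L
      omega
    rcases lt_trichotomy (a : ℕ) (B.col x) with h | h | h
    · exfalso
      have h3 := count_x (B.col x) (by omega) 0 (B.L r) le_rfl (P := fun s : B.Pt r =>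
        B.KX r (Sum.inr (a, b)) ≤ B.KX r s ∧ B.KX r s < B.KX r (Sum.inl x)) (by
          intro b' _ _
          refine ⟨((KX_frame a b _ b').2 (Or.inl h)).le, (KX_frame_point _ b' x).2 le_rfl⟩)
      omega
    · left
      have h3 := count_x (B.col x) (by omega) b (B.L r) le_rfl (P := fun s : B.Pt r =>
        B.KX r (Sum.inr (a, b)) ≤ B.KX r s ∧ B.KX r s < B.KX r (Sum.inl x)) (by
          intro b' hb' _
          refine ⟨?_, (KX_frame_point _ b' x).2 le_rfl⟩
          rw [← not_lt, KX_frame]
          simp only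
          omega)
      have := b.2
      omega
    · right
      rcases Nat.lt_or_ge (B.col x + 1) a with h' | h'
      · exfalso
        have h3 := count_x (B.col x + 1) (by omega) 0 (B.L r) le_rfl (P := fun s : B.Pt r =>
          B.KX r (Sum.inl x) ≤ B.KX r s ∧ B.KX r s < B.KX r (Sum.inr (a, b))) (by
            intro b' _ _
            refine ⟨((KX_point_frame _ b' x).2 (Nat.lt_succ_self _)).le,
              (KX_frame _ b' a b).2 (Or.inl h')⟩)
        omega
      · have h3 := count_x (B.col x + 1) (by omega) 0 b b.2.le (P := fun s : B.Pt r =>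
          B.KX r (Sum.inl x) ≤ B.KX r s ∧ B.KX r s < B.KX r (Sum.inr (a, b))) (by
            intro b' _ hb'
            refine ⟨((KX_point_frame _ b' x).2 (Nat.lt_succ_self _)).le,
              (KX_frame _ b' a b).2 (Or.inr ⟨?_, hb'⟩)⟩
            simp only
            omega)
        omega
  · rintro c d rfl
    rcases lt_trichotomy (a : ℕ) (c : ℕ) with h | h | h
    · right; left
      have h3 := count_x a a.2 b (B.L r) le_rfl (P := fun s : B.Pt r =>
        B.KX r (Sum.inr (a, b)) ≤ B.KX r s ∧ B.KX r s < B.KX r (Sum.inr (c, d))) (by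
          intro b' hb' _
          refine ⟨?_, (KX_frame _ b' c d).2 (Or.inl h)⟩
          rw [← not_lt, KX_frame]
          simp only
          omega)
      refine ⟨by have := b.2; omega, ?_⟩
      have h4 := count_x c c.2 0 d d.2.le (P := fun s : B.Pt r =>
        B.KX r (Sum.inr (a, b)) ≤ B.KX r s ∧ B.KX r s < B.KX r (Sum.inr (c, d))) (by
          intro b' _ hb'
          refine ⟨((KX_frame a b _ b').2 (Or.inl h)).le,
            (KX_frame _ b' c d).2 (Or.inr ⟨rfl, hb'⟩)⟩)
      omega
    · left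
      exact Fin.ext h
    · right; right
      have h3 := count_x c c.2 d (B.L r) le_rfl (P := fun s : B.Pt r =>
        B.KX r (Sum.inr (c, d)) ≤ B.KX r s ∧ B.KX r s < B.KX r (Sum.inr (a, b))) (by
          intro b' hb' _
          refine ⟨?_, (KX_frame _ b' a b).2 (Or.inl h)⟩
          rw [← not_lt, KX_frame]
          simp only
          omega)
      refine ⟨by have := d.2; omega, ?_⟩
      have h4 := count_x a a.2 0 b b.2.le (P := fun s : B.Pt r =>
        B.KX r (Sum.inr (c, d)) ≤ B.KX r s ∧ B.KX r s < B.KX r (Sum.inr (a, b))) (by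
          intro b' _ hb'
          refine ⟨((KX_frame c d _ b').2 (Or.inl h)).le,
            (KX_frame _ b' a b).2 (Or.inr ⟨rfl, hb'⟩)⟩)
      omega

/-- vertical distance at most `r` between a frame point and another point -/
theorem near_y [Fintype X] (a b : Fin (B.L r)) (q : B.Pt r)
    (h1 : (Finset.univ.filter (fun s : B.Pt r =>
      B.KY r (Sum.inr (a, b)) ≤ B.KY r s ∧ B.KY r s < B.KY r q)).card ≤ r)
    (h2 : (Finset.univ.filter (fun s : B.Pt r =>
      B.KY r q ≤ B.KY r s ∧ B.KY r s < B.KY r (Sum.inr (a, b)))).card ≤ r) :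
    (∀ x, q = Sum.inl x → (b : ℕ) = r + 1 + B.row x ∨ (b : ℕ) = r + 2 + B.row x) ∧
    ∀ c d, q = Sum.inr (c, d) → b = d ∨
      ((b : ℕ) + 1 = d ∧ B.L r ≤ a + r ∧ (c : ℕ) ≤ r) ∨
      ((d : ℕ) + 1 = b ∧ B.L r ≤ c + r ∧ (a : ℕ) ≤ r) := by
  have hL : r < B.L r := by unfold L; omega
  constructor
  · rintro x rfl
    have hcL : r + 2 + B.row x < B.L r := by
      have := B.row_lt x
      unfold L
      omega
    by_contra hcon
    push Not at hcon
    rcases Nat.lt_or_ge (b : ℕ) (r + 1 + B.row x) with h | h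
    · have h3 := count_y (r + 1 + B.row x) (by omega) 0 (B.L r) le_rfl
        (P := fun s : B.Pt r =>
        B.KY r (Sum.inr (a, b)) ≤ B.KY r s ∧ B.KY r s < B.KY r (Sum.inl x)) (by
          intro a' _ _
          refine ⟨((KY_frame a b a' _).2 (Or.inl h)).le, (KY_frame_point a' _ x).2 le_rfl⟩)
      omega
    · have h' : r + 2 + B.row x < b := by omega
      have h3 := count_y (r + 2 + B.row x) (by omega) 0 (B.L r) le_rfl
        (P := fun s : B.Pt r =>
        B.KY r (Sum.inl x) ≤ B.KY r s ∧ B.KY r s < B.KY r (Sum.inr (a, b))) (by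
          intro a' _ _
          refine ⟨((KY_point_frame a' _ x).2 ?_).le, (KY_frame a' _ a b).2 (Or.inl h')⟩
          simp only
          omega)
      omega
  · rintro c d rfl
    rcases lt_trichotomy (b : ℕ) (d : ℕ) with h | h | h
    · right; left
      have h5 : (b : ℕ) + 1 = d := by
        by_contra hne
        have h3 := count_y ((b : ℕ) + 1) (by have := d.2; omega) 0 (B.L r) le_rfl
          (P := fun s : B.Pt r =>
          B.KY r (Sum.inr (a, b)) ≤ B.KY r s ∧ B.KY r s < B.KY r (Sum.inr (c, d))) (by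
            intro a' _ _
            refine ⟨((KY_frame a b a' _).2 (Or.inl (Nat.lt_succ_self _))).le,
              (KY_frame a' _ c d).2 (Or.inl ?_)⟩
            simp only
            omega)
        omega
      have h3 := count_y b b.2 a (B.L r) le_rfl (P := fun s : B.Pt r =>
        B.KY r (Sum.inr (a, b)) ≤ B.KY r s ∧ B.KY r s < B.KY r (Sum.inr (c, d))) (by
          intro a' ha' _
          refine ⟨?_, (KY_frame a' _ c d).2 (Or.inl h)⟩
          rw [← not_lt, KY_frame]
          simp only
          omega)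
      refine ⟨h5, by have := a.2; omega, ?_⟩
      have h4 := count_y d d.2 0 c c.2.le (P := fun s : B.Pt r =>
        B.KY r (Sum.inr (a, b)) ≤ B.KY r s ∧ B.KY r s < B.KY r (Sum.inr (c, d))) (by
          intro a' _ ha'
          refine ⟨((KY_frame a b a' _).2 (Or.inl h)).le,
            (KY_frame a' _ c d).2 (Or.inr ⟨rfl, ha'⟩)⟩)
      omega
    · left
      exact Fin.ext h
    · right; right
      have h5 : (d : ℕ) + 1 = b := by
        by_contra hne
        have h3 := count_y ((d : ℕ) + 1) (by have := b.2; omega) 0 (B.L r) le_rfl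
          (P := fun s : B.Pt r =>
          B.KY r (Sum.inr (c, d)) ≤ B.KY r s ∧ B.KY r s < B.KY r (Sum.inr (a, b))) (by
            intro a' _ _
            refine ⟨((KY_frame c d a' _).2 (Or.inl (Nat.lt_succ_self _))).le,
              (KY_frame a' _ a b).2 (Or.inl ?_)⟩
            simp only
            omega)
        omega
      have h3 := count_y d d.2 c (B.L r) le_rfl (P := fun s : B.Pt r =>
        B.KY r (Sum.inr (c, d)) ≤ B.KY r s ∧ B.KY r s < B.KY r (Sum.inr (a, b))) (by
          intro a' ha' _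
          refine ⟨?_, (KY_frame a' _ a b).2 (Or.inl h)⟩
          rw [← not_lt, KY_frame]
          simp only
          omega)
      refine ⟨h5, by have := c.2; omega, ?_⟩
      have h4 := count_y b b.2 0 a a.2.le (P := fun s : B.Pt r =>
        B.KY r (Sum.inr (c, d)) ≤ B.KY r s ∧ B.KY r s < B.KY r (Sum.inr (a, b))) (by
          intro a' _ ha'
          refine ⟨((KY_frame c d a' _).2 (Or.inl h)).le,
            (KY_frame a' _ a b).2 (Or.inr ⟨rfl, ha'⟩)⟩)
      omega

/-- frame points are isolated -/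
theorem isolated [Fintype X] (a b : Fin (B.L r)) (q : B.Pt r)
    (h1 : (Finset.univ.filter (fun s : B.Pt r =>
      B.KX r (Sum.inr (a, b)) ≤ B.KX r s ∧ B.KX r s < B.KX r q)).card ≤ r)
    (h2 : (Finset.univ.filter (fun s : B.Pt r =>
      B.KX r q ≤ B.KX r s ∧ B.KX r s < B.KX r (Sum.inr (a, b)))).card ≤ r)
    (h3 : (Finset.univ.filter (fun s : B.Pt r =>
      B.KY r (Sum.inr (a, b)) ≤ B.KY r s ∧ B.KY r s < B.KY r q)).card ≤ r)
    (h4 : (Finset.univ.filter (fun s : B.Pt r =>
      B.KY r q ≤ B.KY r s ∧ B.KY r s < B.KY r (Sum.inr (a, b)))).card ≤ r) :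
    q = Sum.inr (a, b) := by
  obtain ⟨hx1, hx2⟩ := near_x a b q h1 h2
  obtain ⟨hy1, hy2⟩ := near_y a b q h3 h4
  have hL : B.L r = B.m + B.n + 4 * r + 4 := rfl
  rcases q with x | ⟨c, d⟩
  · exfalso
    have h5 := hx1 x rfl
    have h6 := hy1 x rfl
    have := B.row_lt x
    omega
  · have h5 := hx2 c d rfl
    have h6 := hy2 c d rfl
    have hab : a = c ∧ b = d := by
      rcases h5 with h5 | h5 | h5
      · rcases h6 with h6 | h6 | h6
        · exact ⟨h5, h6⟩
        · exfalso
          rw [h5] at h6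
          omega
        · exfalso
          rw [h5] at h6
          omega
      · exfalso
        rcases h6 with h6 | h6 | h6
        · rw [h6] at h5
          omega
        · omega
        · omega
      · exfalso
        rcases h6 with h6 | h6 | h6
        · rw [h6] at h5
          omega
        · omega
        · omega
    rw [hab.1, hab.2]

end count

end Board

end PP
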