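import Mathlib
import Pool.Agent.PP.Pattern
import Pool.Agent.CT.Skel

/-!
# Intervals of the pattern poset and skeleta

Let `X` be a finite set of points in general position, with pattern `π`, and let `σ < π`.
If for every `τ` in the open interval all sets of points whose deletion gives `τ` have a
common point, the order complex of the open interval is homotopy equivalent to the order
complex of the poset of nonempty sets with fewer than `r = |π| - |σ|` points which are
contained in a deletion set of `σ`.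
-/

namespace PP

open Function CT
open scoped ContinuousMap

variable {X α β ι : Type} [Fintype X] [DecidableEq X] [LinearOrder α] [LinearOrder β]
  (kx : X → α) (ky : X → β) (hx : Injective kx) (hy : Injective ky)

/-- the pattern after deleting the points of `Q` -/
noncomputable def del (Q : Finset X) : PPerm := patt kx ky hx hy Qᶜ

theorem del_n (Q : Finset X) : (del kx ky hx hy Q).n = Fintype.card X - Q.card :=
  Finset.card_compl Q

theorem del_anti {Q Q' : Finset X} (h : Q ⊆ Q') :
    del kx ky hx hy Q' ≤ del kx ky hx hy Q :=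
  patt_mono kx ky hx hy (Finset.compl_subset_compl.2 h)

theorem exists_del {Q : Finset X} {τ : PPerm} (h : τ ≤ del kx ky hx hy Q) :
    ∃ Q', Q ⊆ Q' ∧ del kx ky hx hy Q' = τ := by
  obtain ⟨S, hS, rfl⟩ := exists_sub kx ky hx hy h
  refine ⟨Sᶜ, ?_, ?_⟩
  · rw [← Finset.compl_subset_compl, compl_compl]
    exact hS
  · unfold del
    rw [compl_compl]

theorem Ioo_finite (σ : PPerm) : (Set.Ioo σ (del kx ky hx hy ∅)).Finite := by
  refine (Set.finite_range (del kx ky hx hy)).subset ?_
  rintro τ ⟨-, h⟩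
  obtain ⟨Q, -, hQ⟩ := exists_del kx ky hx hy h.le
  exact ⟨Q, hQ⟩

/-- **Intervals and skeleta.** -/
theorem interval_equiv (D : ι → Finset X) {σ : PPerm}
    (hD : ∀ Q : Finset X, del kx ky hx hy Q = σ ↔ ∃ s, (D s).Nonempty ∧ D s = Q)
    (hpt : ∀ τ, σ < τ → τ < del kx ky hx hy ∅ →
      ∃ p, ∀ Q : Finset X, del kx ky hx hy Q = τ → p ∈ Q) :
    Nonempty (Rz (OC (skel D (Fintype.card X - σ.n))) ≃ₕ
      Rz (OC (Set.Ioo σ (del kx ky hx hy ∅)))) := by
  classical
  set r : ℕ := Fintype.card X - σ.n with hr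
  have hn0 : (del kx ky hx hy ∅).n = Fintype.card X := by
    rw [del_n, Finset.card_empty, Nat.sub_zero]
  have hle : ∀ Q : Finset X, Q.card ≤ Fintype.card X := fun Q => Finset.card_le_univ Q
  -- every deletion set of an element above `σ` lies in some `D s`
  have hsub : ∀ Q : Finset X, σ ≤ del kx ky hx hy Q → ∃ s, Q ⊆ D s := by
    intro Q h
    obtain ⟨Q', hQ', h'⟩ := exists_del kx ky hx hy h
    obtain ⟨s, -, hs⟩ := (hD Q').1 h'
    exact ⟨s, hs ▸ hQ'⟩
  have hlt : ∀ {Q : Finset X} {τ : PPerm}, σ < τ → τ ≤ del kx ky hx hy Q → Q.card < r := by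
    intro Q τ h1 h2
    have h3 := n_lt h1
    have h4 := n_le h2
    rw [del_n] at h4
    have := hle Q
    omega
  refine quillen_anti (A := skel D r) (B := Set.Ioo σ (del kx ky hx hy ∅))
    ((Set.toFinite _)) (Ioo_finite kx ky hx hy σ) (del kx ky hx hy) ?_ ?_ ?_
  · rintro P ⟨hP, hPr, s, hPs⟩
    have h1 : σ ≤ del kx ky hx hy P := by
      have h2 := del_anti kx ky hx hy hPs
      rwa [(hD (D s)).2 ⟨s, hP.mono hPs, rfl⟩] at h2
    have h3 : 0 < P.card := Finset.card_pos.2 hP
    have := hle P
    refine ⟨lt_iff.2 ⟨h1, ?_⟩, lt_iff.2 ⟨del_anti kx ky hx hy (Finset.empty_subset P), ?_⟩⟩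
    · rw [del_n]
      omega
    · rw [del_n, hn0]
      omega
  · intro P _ Q _ h
    exact del_anti kx ky hx hy h
  · rintro τ ⟨hτ1, hτ2⟩
    obtain ⟨p, hp⟩ := hpt τ hτ1 hτ2
    obtain ⟨Q₀, -, hQ₀⟩ := exists_del kx ky hx hy hτ2.le
    -- adding `p` to a set in the fibre
    have key : ∀ P : Finset X, τ ≤ del kx ky hx hy P →
        insert p P ∈ skel D r ∧ τ ≤ del kx ky hx hy (insert p P) := by
      intro P hP
      obtain ⟨Q, hPQ, hQ⟩ := exists_del kx ky hx hy hP
      have h1 : insert p P ⊆ Q := Finset.insert_subset (hp Q hQ) hPQ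
      have h2 : τ ≤ del kx ky hx hy (insert p P) := by
        have h3 := del_anti kx ky hx hy h1
        rwa [hQ] at h3
      exact ⟨⟨Finset.insert_nonempty _ _, hlt hτ1 h2, hsub _ (hτ1.le.trans h2)⟩, h2⟩
    have hempty := key ∅ hτ2.le
    refine contractible_join (A := {P ∈ skel D r | τ ≤ del kx ky hx hy P}) (Set.toFinite _)
      {p} ?_ (fun P => insert p P) ?_ ?_ ?_ ?_
    · exact hempty
    · rintro P ⟨-, hP⟩
      exact key P hP
    · intro P _
      exact Finset.subset_insert _ _
    · intro P _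
      exact Finset.singleton_subset_iff.2 (Finset.mem_insert_self _ _)
    · intro P _ Q _ hPQ hpQ
      exact Finset.insert_subset (Finset.singleton_subset_iff.1 hpQ) hPQ

end PP
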