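import Mathlib
import Pool.Agent.PP.Board
import Pool.Agent.PP.Interval

/-!
# The board theorem: isomorphisms of patterns are isomorphisms of boards
-/

namespace PP

open Function

variable {X : Type} [Fintype X] [DecidableEq X] (B : Board X) (r : ℕ)

namespace Board

/-- the embedding of the points -/
def inX : X ↪ B.Pt r := ⟨Sum.inl, Sum.inl_injective⟩

/-- the pattern after deleting a set of points (of the frame or of the board) -/
noncomputable abbrev dl (U : Finset (B.Pt r)) : PPerm :=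
  del (B.KX r) (B.KY r) KX_inj KY_inj U

variable {B r}

omit [Fintype X] [DecidableEq X] in
theorem mem_map_inX {Q : Finset X} {x : X} : Sum.inl x ∈ Q.map (B.inX r) ↔ x ∈ Q := by
  constructor
  · intro h
    obtain ⟨y, hy, hxy⟩ := Finset.mem_map.1 h
    have h1 : y = x := Sum.inl_injective hxy
    rwa [← h1]
  · intro h
    exact Finset.mem_map_of_mem (B.inX r) h

omit [Fintype X] [DecidableEq X] in
theorem inr_not_mem {Q : Finset X} {p : Fin (B.L r) × Fin (B.L r)} :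
    Sum.inr p ∉ Q.map (B.inX r) := by
  intro h
  obtain ⟨y, -, hxy⟩ := Finset.mem_map.1 h
  cases hxy

/-- extending an isomorphism of boards by the identity of the frame -/
theorem extend_iso {Q Q' : Finset X} (h : GIso B Q Q') :
    B.dl r (Q.map (B.inX r)) = B.dl r (Q'.map (B.inX r)) := by
  obtain ⟨φ, h1, h2, h3, h4⟩ := h
  have hL : B.L r = B.m + B.n + 4 * r + 4 := rfl
  unfold dl del
  rw [patt_eq_iff]
  let F : ((Q.map (B.inX r))ᶜ : Finset (B.Pt r)) → ((Q'.map (B.inX r))ᶜ : Finset (B.Pt r)) :=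
    fun z => match z with
      | ⟨Sum.inl x, hx⟩ => ⟨Sum.inl (φ ⟨x, fun h => Finset.mem_compl.1 hx (mem_map_inX.2 h)⟩),
          Finset.mem_compl.2 fun h => (φ ⟨x, fun h => Finset.mem_compl.1 hx
            (mem_map_inX.2 h)⟩).2 (mem_map_inX.1 h)⟩
      | ⟨Sum.inr p, _⟩ => ⟨Sum.inr p, Finset.mem_compl.2 inr_not_mem⟩
  let G : ((Q'.map (B.inX r))ᶜ : Finset (B.Pt r)) → ((Q.map (B.inX r))ᶜ : Finset (B.Pt r)) :=
    fun z => match z with
      | ⟨Sum.inl x, hx⟩ => ⟨Sum.inl (φ.symm ⟨x, fun h => Finset.mem_compl.1 hx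
          (mem_map_inX.2 h)⟩), Finset.mem_compl.2 fun h => (φ.symm ⟨x, fun h =>
            Finset.mem_compl.1 hx (mem_map_inX.2 h)⟩).2 (mem_map_inX.1 h)⟩
      | ⟨Sum.inr p, _⟩ => ⟨Sum.inr p, Finset.mem_compl.2 inr_not_mem⟩
  refine ⟨⟨F, G, ?_, ?_⟩, ?_, ?_⟩
  · rintro ⟨x | p, hx⟩
    · simp [F, G]
    · rfl
  · rintro ⟨x | p, hx⟩
    · simp [F, G]
    · rfl
  · rintro ⟨x | ⟨a, b⟩, hx⟩ ⟨y | ⟨c, d⟩, hy⟩
    · have hx' : x ∉ Q := fun h => Finset.mem_compl.1 hx (mem_map_inX.2 h)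
      have hy' : y ∉ Q := fun h => Finset.mem_compl.1 hy (mem_map_inX.2 h)
      change B.KX r (Sum.inl x) < B.KX r (Sum.inl y) ↔
        B.KX r (Sum.inl (φ ⟨x, hx'⟩ : X)) < B.KX r (Sum.inl (φ ⟨y, hy'⟩ : X))
      rw [KX_point, KX_point, h1, h1]
      have h5 := h3 ⟨x, hx'⟩ ⟨y, hy'⟩
      constructor
      · rintro (h6 | ⟨h6, h7⟩)
        · exact Or.inl h6
        · exact Or.inr ⟨h6, (h5 h6).1 h7⟩
      · rintro (h6 | ⟨h6, h7⟩)
        · exact Or.inl h6
        · exact Or.inr ⟨h6, (h5 h6).2 h7⟩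
    · have hx' : x ∉ Q := fun h => Finset.mem_compl.1 hx (mem_map_inX.2 h)
      change B.KX r (Sum.inl x) < B.KX r (Sum.inr (c, d)) ↔
        B.KX r (Sum.inl (φ ⟨x, hx'⟩ : X)) < B.KX r (Sum.inr (c, d))
      rw [KX_point_frame, KX_point_frame, h1]
    · have hy' : y ∉ Q := fun h => Finset.mem_compl.1 hy (mem_map_inX.2 h)
      change B.KX r (Sum.inr (a, b)) < B.KX r (Sum.inl y) ↔
        B.KX r (Sum.inr (a, b)) < B.KX r (Sum.inl (φ ⟨y, hy'⟩ : X))
      rw [KX_frame_point, KX_frame_point, h1]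
    · exact Iff.rfl
  · rintro ⟨x | ⟨a, b⟩, hx⟩ ⟨y | ⟨c, d⟩, hy⟩
    · have hx' : x ∉ Q := fun h => Finset.mem_compl.1 hx (mem_map_inX.2 h)
      have hy' : y ∉ Q := fun h => Finset.mem_compl.1 hy (mem_map_inX.2 h)
      change B.KY r (Sum.inl x) < B.KY r (Sum.inl y) ↔
        B.KY r (Sum.inl (φ ⟨x, hx'⟩ : X)) < B.KY r (Sum.inl (φ ⟨y, hy'⟩ : X))
      rw [KY_point, KY_point, h2, h2]
      have h5 := h4 ⟨x, hx'⟩ ⟨y, hy'⟩
      constructor
      · rintro (h6 | ⟨h6, h7⟩)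
        · exact Or.inl h6
        · exact Or.inr ⟨h6, (h5 h6).1 h7⟩
      · rintro (h6 | ⟨h6, h7⟩)
        · exact Or.inl h6
        · exact Or.inr ⟨h6, (h5 h6).2 h7⟩
    · have hx' : x ∉ Q := fun h => Finset.mem_compl.1 hx (mem_map_inX.2 h)
      change B.KY r (Sum.inl x) < B.KY r (Sum.inr (c, d)) ↔
        B.KY r (Sum.inl (φ ⟨x, hx'⟩ : X)) < B.KY r (Sum.inr (c, d))
      rw [KY_point_frame, KY_point_frame, h2]
    · have hy' : y ∉ Q := fun h => Finset.mem_compl.1 hy (mem_map_inX.2 h)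
      change B.KY r (Sum.inr (a, b)) < B.KY r (Sum.inl y) ↔
        B.KY r (Sum.inr (a, b)) < B.KY r (Sum.inl (φ ⟨y, hy'⟩ : X))
      rw [KY_frame_point, KY_frame_point, h2]
    · exact Iff.rfl

/-- **The board theorem.** -/
theorem board_iff (Q : Finset X) (hQ : Q.card ≤ r) (U : Finset (B.Pt r)) :
    B.dl r U = B.dl r (Q.map (B.inX r)) ↔
      ∃ Q' : Finset X, U = Q'.map (B.inX r) ∧ GIso B Q Q' := by
  classical
  constructor
  swap
  · rintro ⟨Q', rfl, h⟩
    exact (extend_iso h).symm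
  intro h
  have hL : B.L r = B.m + B.n + 4 * r + 4 := rfl
  have hn := congrArg PPerm.n h
  rw [del_n, del_n, Finset.card_map] at hn
  have hUc : U.card ≤ Fintype.card (B.Pt r) := Finset.card_le_univ _
  have hQc : (Q.map (B.inX r)).card ≤ Fintype.card (B.Pt r) := Finset.card_le_univ _
  rw [Finset.card_map] at hQc
  have hU : U.card ≤ r := by omega
  obtain ⟨g, hg1, hg2⟩ := (patt_eq_iff (B.KX r) (B.KY r) KX_inj KY_inj (B.KX r) (B.KY r)
    KX_inj KY_inj (Q.map (B.inX r))ᶜ Uᶜ).1 h.symm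
  -- the frame is fixed
  have hfix : ∀ p : Fin (B.L r) × Fin (B.L r),
      (g ⟨Sum.inr p, Finset.mem_compl.2 inr_not_mem⟩ : B.Pt r) = Sum.inr p := by
    rintro ⟨a, b⟩
    refine isolated a b _ ?_ ?_ ?_ ?_
    · exact rank_close' (B.KX r) (Q.map (B.inX r)) U r hU g hg1
        ⟨Sum.inr (a, b), Finset.mem_compl.2 inr_not_mem⟩
    · exact rank_close (B.KX r) (Q.map (B.inX r)) U r (by rwa [Finset.card_map]) g hg1
        ⟨Sum.inr (a, b), Finset.mem_compl.2 inr_not_mem⟩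
    · exact rank_close' (B.KY r) (Q.map (B.inX r)) U r hU g hg2
        ⟨Sum.inr (a, b), Finset.mem_compl.2 inr_not_mem⟩
    · exact rank_close (B.KY r) (Q.map (B.inX r)) U r (by rwa [Finset.card_map]) g hg2
        ⟨Sum.inr (a, b), Finset.mem_compl.2 inr_not_mem⟩
  have hUinr : ∀ p : Fin (B.L r) × Fin (B.L r), (Sum.inr p : B.Pt r) ∉ U := by
    intro p hp
    have h1 := (g ⟨Sum.inr p, Finset.mem_compl.2 inr_not_mem⟩).2
    rw [hfix p] at h1
    exact Finset.mem_compl.1 h1 hp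
  set Q' : Finset X := Finset.univ.filter (fun x => (Sum.inl x : B.Pt r) ∈ U) with hQ'
  have hmemQ' : ∀ x, x ∈ Q' ↔ (Sum.inl x : B.Pt r) ∈ U := fun x => by simp [hQ']
  have hUQ' : U = Q'.map (B.inX r) := by
    ext z
    rcases z with x | p
    · rw [mem_map_inX, hmemQ']
    · exact ⟨fun h => absurd h (hUinr p), fun h => absurd h inr_not_mem⟩
  refine ⟨Q', hUQ', ?_⟩
  -- points go to points
  have hpt : ∀ x : {x // x ∉ Q}, ∃ y : {y // y ∉ Q'},
      (g ⟨Sum.inl x.1, Finset.mem_compl.2 fun h => x.2 (mem_map_inX.1 h)⟩ : B.Pt r) =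
        Sum.inl y.1 := by
    rintro ⟨x, hx⟩
    have h1 := (g ⟨Sum.inl x, Finset.mem_compl.2 fun h => hx (mem_map_inX.1 h)⟩).2
    rcases hgx : (g ⟨Sum.inl x, Finset.mem_compl.2 fun h => hx (mem_map_inX.1 h)⟩ : B.Pt r)
      with y | p
    · refine ⟨⟨y, fun hy => ?_⟩, rfl⟩
      rw [hgx] at h1
      exact Finset.mem_compl.1 h1 ((hmemQ' y).1 hy)
    · exfalso
      have h2 : g ⟨Sum.inl x, Finset.mem_compl.2 fun h => hx (mem_map_inX.1 h)⟩ =
          g ⟨Sum.inr p, Finset.mem_compl.2 inr_not_mem⟩ := by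
        apply Subtype.ext
        rw [hgx, hfix p]
      have h3 := congrArg Subtype.val (g.injective h2)
      cases h3
  choose φ hφ using hpt
  have hinj : Injective φ := by
    intro x y hxy
    have h1 : g ⟨Sum.inl x.1, Finset.mem_compl.2 fun h => x.2 (mem_map_inX.1 h)⟩ =
        g ⟨Sum.inl y.1, Finset.mem_compl.2 fun h => y.2 (mem_map_inX.1 h)⟩ := by
      apply Subtype.ext
      rw [hφ x, hφ y, hxy]
    have h2 := congrArg Subtype.val (g.injective h1)
    exact Subtype.ext (Sum.inl_injective h2)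
  have hsurj : Surjective φ := by
    rintro ⟨y, hy⟩
    have hyU : (Sum.inl y : B.Pt r) ∈ Uᶜ :=
      Finset.mem_compl.2 fun h => hy ((hmemQ' y).2 h)
    obtain ⟨⟨z, hz⟩, hgz⟩ := g.surjective ⟨Sum.inl y, hyU⟩
    rcases z with x | p
    · have hx : x ∉ Q := fun h => Finset.mem_compl.1 hz (mem_map_inX.2 h)
      refine ⟨⟨x, hx⟩, ?_⟩
      have h1 := hφ ⟨x, hx⟩
      have h2 : (g ⟨Sum.inl x, hz⟩ : B.Pt r) = Sum.inl y := by rw [hgz]
      have h3 : (Sum.inl y : B.Pt r) = Sum.inl (φ ⟨x, hx⟩).1 := h2.symm.trans h1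
      exact Subtype.ext (Sum.inl_injective h3).symm
    · exfalso
      have h1 := hfix p
      have h2 : (g ⟨Sum.inr p, hz⟩ : B.Pt r) = Sum.inl y := by rw [hgz]
      have h3 : (Sum.inr p : B.Pt r) = Sum.inl y := h1.symm.trans h2
      cases h3
  refine ⟨Equiv.ofBijective φ ⟨hinj, hsurj⟩, ?_, ?_, ?_, ?_⟩
  · intro x
    change B.col (φ x) = B.col x
    have key : ∀ c : ℕ, c < B.L r → (c ≤ B.col x ↔ c ≤ B.col (φ x)) := by
      intro c hc
      have h1 := hg1 ⟨Sum.inr (⟨c, hc⟩, ⟨0, by omega⟩), Finset.mem_compl.2 inr_not_mem⟩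
        ⟨Sum.inl x.1, Finset.mem_compl.2 fun h => x.2 (mem_map_inX.1 h)⟩
      rw [hfix, hφ x] at h1
      simp only at h1
      rw [KX_frame_point, KX_frame_point] at h1
      exact h1
    have h1 := B.col_lt x
    have h2 := B.col_lt (φ x)
    have h3 := (key (B.col x) (by omega)).1 le_rfl
    have h4 := (key (B.col (φ x)) (by omega)).2 le_rfl
    omega
  · intro x
    change B.row (φ x) = B.row x
    have key : ∀ c : ℕ, c < B.L r → (c ≤ r + 1 + B.row x ↔ c ≤ r + 1 + B.row (φ x)) := by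
      intro c hc
      have h1 := hg2 ⟨Sum.inr (⟨0, by omega⟩, ⟨c, hc⟩), Finset.mem_compl.2 inr_not_mem⟩
        ⟨Sum.inl x.1, Finset.mem_compl.2 fun h => x.2 (mem_map_inX.1 h)⟩
      rw [hfix, hφ x] at h1
      simp only at h1
      rw [KY_frame_point, KY_frame_point] at h1
      exact h1
    have h1 := B.row_lt x
    have h2 := B.row_lt (φ x)
    have h3 := (key (r + 1 + B.row x) (by omega)).1 le_rfl
    have h4 := (key (r + 1 + B.row (φ x)) (by omega)).2 le_rfl
    omega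
  · intro x y hxy
    change B.kx x < B.kx y ↔ B.kx (φ x) < B.kx (φ y)
    have hcol : ∀ x, B.col (φ x) = B.col x := by
      intro x
      have key : ∀ c : ℕ, c < B.L r → (c ≤ B.col x ↔ c ≤ B.col (φ x)) := by
        intro c hc
        have h1 := hg1 ⟨Sum.inr (⟨c, hc⟩, ⟨0, by omega⟩), Finset.mem_compl.2 inr_not_mem⟩
          ⟨Sum.inl x.1, Finset.mem_compl.2 fun h => x.2 (mem_map_inX.1 h)⟩
        rw [hfix, hφ x] at h1
        simp only at h1
        rw [KX_frame_point, KX_frame_point] at h1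
        exact h1
      have h1 := B.col_lt x
      have h2 := B.col_lt (φ x)
      have h3 := (key (B.col x) (by omega)).1 le_rfl
      have h4 := (key (B.col (φ x)) (by omega)).2 le_rfl
      omega
    have h1 := hg1 ⟨Sum.inl x.1, Finset.mem_compl.2 fun h => x.2 (mem_map_inX.1 h)⟩
      ⟨Sum.inl y.1, Finset.mem_compl.2 fun h => y.2 (mem_map_inX.1 h)⟩
    rw [hφ x, hφ y] at h1
    simp only at h1
    rw [KX_point, KX_point, hcol x, hcol y, hxy] at h1
    simpa using h1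
  · intro x y hxy
    change B.ky x < B.ky y ↔ B.ky (φ x) < B.ky (φ y)
    have hrow : ∀ x, B.row (φ x) = B.row x := by
      intro x
      have key : ∀ c : ℕ, c < B.L r → (c ≤ r + 1 + B.row x ↔ c ≤ r + 1 + B.row (φ x)) := by
        intro c hc
        have h1 := hg2 ⟨Sum.inr (⟨0, by omega⟩, ⟨c, hc⟩), Finset.mem_compl.2 inr_not_mem⟩
          ⟨Sum.inl x.1, Finset.mem_compl.2 fun h => x.2 (mem_map_inX.1 h)⟩
        rw [hfix, hφ x] at h1
        simp only at h1
        rw [KY_frame_point, KY_frame_point] at h1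
        exact h1
      have h1 := B.row_lt x
      have h2 := B.row_lt (φ x)
      have h3 := (key (r + 1 + B.row x) (by omega)).1 le_rfl
      have h4 := (key (r + 1 + B.row (φ x)) (by omega)).2 le_rfl
      omega
    have h1 := hg2 ⟨Sum.inl x.1, Finset.mem_compl.2 fun h => x.2 (mem_map_inX.1 h)⟩
      ⟨Sum.inl y.1, Finset.mem_compl.2 fun h => y.2 (mem_map_inX.1 h)⟩
    rw [hφ x, hφ y] at h1
    simp only at h1
    rw [KY_point, KY_point, hrow x, hrow y, hxy] at h1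
    simpa using h1

end Board

end PP
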