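import Mathlib
import Pool.Agent.PP.Pattern

/-!
# Permutations as lists, and the computation of patterns

A permutation is given by the list of its values.  The pattern of a finite list of points
with natural coordinates is computed by a primitive recursive function.
-/

namespace PP

open Function

/-- lists which are permutations of `0, ..., n - 1` -/
def IsPerm (l : List ℕ) : Prop := l.Perm (List.range l.length)

instance (l : List ℕ) : Decidable (IsPerm l) := inferInstanceAs (Decidable (List.Perm _ _))

theorem IsPerm.nodup {l : List ℕ} (h : IsPerm l) : l.Nodup :=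
  (List.Perm.nodup_iff h).2 List.nodup_range

theorem IsPerm.lt {l : List ℕ} (h : IsPerm l) (i : Fin l.length) : l.get i < l.length := by
  have h1 : l.get i ∈ l := List.get_mem _ _
  exact List.mem_range.1 ((List.Perm.mem_iff h).1 h1)

/-- the permutation of a list -/
noncomputable def permOf (l : List ℕ) : PPerm :=
  if h : IsPerm l then
    ⟨l.length, Equiv.ofBijective (fun i => (⟨l.get i, h.lt i⟩ : Fin l.length)) (by
      rw [← Finite.injective_iff_bijective]
      intro i j hij
      exact h.nodup.injective_get (congrArg Fin.val hij))⟩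
  else ⟨0, 1⟩

theorem permOf_n {l : List ℕ} (h : IsPerm l) : (permOf l).n = l.length := by
  unfold permOf
  rw [dif_pos h]

theorem permOf_eq (π : PPerm) (l : List ℕ) (hl : l.length = π.n)
    (h : ∀ (i : ℕ) (hi : i < π.n), l[i]'(hl ▸ hi) = π.p ⟨i, hi⟩) :
    IsPerm l ∧ permOf l = π := by
  have hinj : l.Nodup := by
    rw [List.nodup_iff_injective_getElem]
    intro i j hij
    have hi : (i : ℕ) < π.n := hl ▸ i.2
    have hj : (j : ℕ) < π.n := hl ▸ j.2
    have h1 : (π.p ⟨i, hi⟩ : ℕ) = π.p ⟨j, hj⟩ := by
      rw [← h i hi, ← h j hj]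
      exact hij
    have h2 := π.p.injective (Fin.ext h1)
    exact Fin.ext (Fin.mk.inj h2)
  have hperm : IsPerm l := by
    unfold IsPerm
    rw [List.perm_ext_iff_of_nodup hinj List.nodup_range]
    intro a
    rw [List.mem_range]
    constructor
    · intro ha
      obtain ⟨i, hi, rfl⟩ := List.getElem_of_mem ha
      rw [h i (hl ▸ hi)]
      exact lt_of_lt_of_eq (π.p _).2 hl.symm
    · intro ha
      have ha' : a < π.n := hl ▸ ha
      obtain ⟨⟨b, hb⟩, hb'⟩ := π.p.surjective ⟨a, ha'⟩
      have h1 := h b hb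
      rw [hb'] at h1
      have h2 : l[b]'(lt_of_lt_of_eq hb hl.symm) = a := h1
      rw [← h2]
      exact List.getElem_mem _
  refine ⟨hperm, ?_⟩
  unfold permOf
  rw [dif_pos hperm]
  refine eq_of_le ⟨Fin.cast hl, fun i j hij => hij, ?_⟩ hl.ge
  intro i j hij
  have h1 : l.get i < l.get j := hij
  have h2 := h i (hl ▸ i.2)
  have h3 := h j (hl ▸ j.2)
  refine Fin.lt_def.2 ?_
  change (π.p ⟨i, hl ▸ i.2⟩ : ℕ) < π.p ⟨j, hl ▸ j.2⟩
  rw [← h2, ← h3]
  exact h1

/-- number of points of `L` to the left of `p` -/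
def xrk (L : List (ℕ × ℕ)) (p : ℕ × ℕ) : ℕ := (L.filter (fun q => decide (q.1 < p.1))).length

/-- number of points of `L` below `p` -/
def yrk (L : List (ℕ × ℕ)) (p : ℕ × ℕ) : ℕ := (L.filter (fun q => decide (q.2 < p.2))).length

/-- the pattern of a list of points -/
def std (L : List (ℕ × ℕ)) : List ℕ :=
  (List.range L.length).map (fun i =>
    ((L.filter (fun p => decide (xrk L p = i))).map (yrk L)).headI)

theorem std_length (L : List (ℕ × ℕ)) : (std L).length = L.length := by
  simp [std]

theorem card_below {X : Type} (k : X → ℕ) (hk : Injective k) (S : Finset X) (x : S) :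
    (S.filter (fun y => k y < k x)).card = ((rk k hk S).symm x : ℕ) := by
  have h : (S.filter (fun y => k y < k x)).card =
      (Finset.Iio ((rk k hk S).symm x)).card := by
    symm
    refine Finset.card_bij (fun j _ => (rk k hk S j : X)) ?_ ?_ ?_
    · intro j hj
      refine Finset.mem_filter.2 ⟨(rk k hk S j).2, ?_⟩
      have h1 := (rk_lt k hk S j ((rk k hk S).symm x)).2 (Finset.mem_Iio.1 hj)
      rwa [Equiv.apply_symm_apply] at h1
    · intro i _ j _ hij
      exact (rk k hk S).injective (Subtype.ext hij)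
    · intro y hy
      obtain ⟨hyS, hyx⟩ := Finset.mem_filter.1 hy
      refine ⟨(rk k hk S).symm ⟨y, hyS⟩, ?_, ?_⟩
      · rw [Finset.mem_Iio]
        exact (rk_symm_lt k hk S ⟨y, hyS⟩ x).2 hyx
      · rw [Equiv.apply_symm_apply]
  rw [h, Fin.card_Iio]

section

variable {X : Type} (kx ky : X → ℕ) (hx : Injective kx) (hy : Injective ky) (S : Finset X)
  (L : List (ℕ × ℕ)) (hL : L.Nodup) (hmem : ∀ q, q ∈ L ↔ ∃ x ∈ S, q = (kx x, ky x))

include hx hL hmem in
theorem L_filter_length (f : ℕ × ℕ → Bool) :
    (L.filter f).length = (S.filter (fun y => f (kx y, ky y))).card := by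
  classical
  have h1 : (L.filter f).length = ((L.filter f).toFinset).card :=
    (List.toFinset_card_of_nodup (hL.filter f)).symm
  rw [h1]
  symm
  refine Finset.card_bij (fun y _ => (kx y, ky y)) ?_ ?_ ?_
  · intro y hy
    obtain ⟨h2, h3⟩ := Finset.mem_filter.1 hy
    rw [List.mem_toFinset, List.mem_filter]
    exact ⟨(hmem _).2 ⟨y, h2, rfl⟩, h3⟩
  · intro a _ b _ hab
    exact hx (Prod.mk.inj hab).1
  · intro q hq
    rw [List.mem_toFinset, List.mem_filter] at hq
    obtain ⟨y, hyS, rfl⟩ := (hmem q).1 hq.1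
    exact ⟨y, Finset.mem_filter.2 ⟨hyS, hq.2⟩, rfl⟩

include hx hL hmem in
theorem xrk_eq (x : S) : xrk L (kx x, ky x) = ((rk kx hx S).symm x : ℕ) := by
  unfold xrk
  rw [L_filter_length kx ky hx S L hL hmem, ← card_below kx hx S x]
  congr 1
  refine Finset.filter_congr fun y _ => ?_
  simp

include hx hy hL hmem in
theorem yrk_eq (x : S) : yrk L (kx x, ky x) = ((rk ky hy S).symm x : ℕ) := by
  unfold yrk
  rw [L_filter_length kx ky hx S L hL hmem, ← card_below ky hy S x]
  congr 1
  refine Finset.filter_congr fun y _ => ?_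
  simp

include hL hmem in
/-- the pattern of a list of points is the pattern of the set of points -/
theorem permOf_std : IsPerm (std L) ∧ permOf (std L) = patt kx ky hx hy S := by
  have hlen : L.length = S.card := by
    have h := L_filter_length kx ky hx S L hL hmem (fun _ => true)
    simpa using h
  refine permOf_eq _ _ (by rw [std_length]; exact hlen) ?_
  intro i hi
  change i < S.card at hi
  have h1 : (std L)[i]'(by rw [std_length, hlen]; exact hi) =
      ((L.filter (fun p => decide (xrk L p = i))).map (yrk L)).headI := by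
    simp [std]
  rw [h1]
  set x : S := rk kx hx S ⟨i, hi⟩ with hxdef
  have h2 : L.filter (fun p => decide (xrk L p = i)) = [(kx x, ky x)] := by
    rw [← List.perm_singleton]
    rw [List.perm_ext_iff_of_nodup (hL.filter _) (List.nodup_singleton _)]
    intro q
    rw [List.mem_filter, List.mem_singleton]
    constructor
    · rintro ⟨hq, hq'⟩
      obtain ⟨y, hyS, rfl⟩ := (hmem q).1 hq
      have h3 : xrk L (kx y, ky y) = i := of_decide_eq_true hq'
      have h4 := xrk_eq kx ky hx S L hL hmem ⟨y, hyS⟩
      rw [h3] at h4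
      have h5 : (rk kx hx S).symm ⟨y, hyS⟩ = ⟨i, hi⟩ := Fin.ext h4.symm
      have h6 : (⟨y, hyS⟩ : S) = x := by
        rw [hxdef, ← h5, Equiv.apply_symm_apply]
      rw [← h6]
    · rintro rfl
      refine ⟨(hmem _).2 ⟨x, x.2, rfl⟩, ?_⟩
      have h4 := xrk_eq kx ky hx S L hL hmem x
      rw [hxdef, Equiv.symm_apply_apply] at h4
      exact decide_eq_true h4
  rw [h2]
  change yrk L (kx x, ky x) = _
  rw [yrk_eq kx ky hx hy S L hL hmem x]
  rfl

end

theorem primrec_xrk : Primrec₂ xrk := by
  have h1 : PrimrecRel (fun (q p : ℕ × ℕ) => q.1 < p.1) :=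
    Primrec.nat_lt.comp (Primrec.fst.comp Primrec.fst) (Primrec.fst.comp Primrec.snd)
  exact Primrec.list_length.comp h1.listFilter

theorem primrec_yrk : Primrec₂ yrk := by
  have h1 : PrimrecRel (fun (q p : ℕ × ℕ) => q.2 < p.2) :=
    Primrec.nat_lt.comp (Primrec.snd.comp Primrec.fst) (Primrec.snd.comp Primrec.snd)
  exact Primrec.list_length.comp h1.listFilter

theorem primrec_std : Primrec std := by
  unfold std
  refine Primrec.list_map (Primrec.list_range.comp Primrec.list_length) ?_
  have h1 : PrimrecRel (fun (p : ℕ × ℕ) (b : List (ℕ × ℕ) × ℕ) => xrk b.1 p = b.2) :=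
    Primrec.eq.comp (primrec_xrk.comp (Primrec.fst.comp Primrec.snd) Primrec.fst)
      (Primrec.snd.comp Primrec.snd)
  have h2 := h1.listFilter
  have h3 : Primrec (fun b : List (ℕ × ℕ) × ℕ =>
      b.1.filter (fun p => decide (xrk b.1 p = b.2))) :=
    h2.comp Primrec.fst Primrec.id
  have h4 : Primrec (fun b : List (ℕ × ℕ) × ℕ =>
      (b.1.filter (fun p => decide (xrk b.1 p = b.2))).map (yrk b.1)) :=
    Primrec.list_map h3 (primrec_yrk.comp (Primrec.fst.comp Primrec.fst) Primrec.snd)
  exact Primrec.list_headI.comp h4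

end PP
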