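import Mathlib
import Pool.Agent.PP.BoardIso
import Pool.Agent.PP.Std

/-!
# The board theorem for finite sets of points

The board of a finite set `V` of points of an ambient type, the permutation `pd` of the
board after deleting a set of points, and its primitive recursive computation.
-/

namespace PP

open Function

/-- a bound for the entries of a list of quadruples -/
def lbnd (l : List (ℕ × ℕ × ℕ × ℕ)) : ℕ :=
  (l.map (fun q => q.1 + q.2.1 + q.2.2.1 + q.2.2.2)).sum + 1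

/-- the frame -/
def frm (L W : ℕ) : List (ℕ × ℕ) :=
  (List.range L).flatMap (fun a => (List.range L).map (fun b => (2 * a * W + b, 2 * b * W + a)))

/-- coordinates of a point -/
def pnt (r W : ℕ) (q : ℕ × ℕ × ℕ × ℕ) : ℕ × ℕ :=
  ((2 * q.1 + 1) * W + q.2.2.1, (2 * (r + 1 + q.2.1) + 1) * W + q.2.2.2)

/-- the permutation of a board: `z` consists of the radius, the quadruples (column, row, place
in the column, place in the row) of all points, and the quadruples of the remaining points -/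
def bd (z : ℕ × List (ℕ × ℕ × ℕ × ℕ) × List (ℕ × ℕ × ℕ × ℕ)) : List ℕ :=
  std (frm (lbnd z.2.1 + lbnd z.2.1 + 4 * z.1 + 4)
      (lbnd z.2.1 + (lbnd z.2.1 + lbnd z.2.1 + 4 * z.1 + 4)) ++
    z.2.2.map (pnt z.1 (lbnd z.2.1 + (lbnd z.2.1 + lbnd z.2.1 + 4 * z.1 + 4))))

theorem primrec_lbnd : Primrec lbnd := by
  have h1 : Primrec₂ (fun (_ : List (ℕ × ℕ × ℕ × ℕ)) (q : ℕ × ℕ × ℕ × ℕ) =>
      q.1 + q.2.1 + q.2.2.1 + q.2.2.2) := by
    have a1 : Primrec (fun z : List (ℕ × ℕ × ℕ × ℕ) × (ℕ × ℕ × ℕ × ℕ) => z.2.1) :=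
      Primrec.fst.comp Primrec.snd
    have a2 : Primrec (fun z : List (ℕ × ℕ × ℕ × ℕ) × (ℕ × ℕ × ℕ × ℕ) => z.2.2.1) :=
      Primrec.fst.comp (Primrec.snd.comp Primrec.snd)
    have a3 : Primrec (fun z : List (ℕ × ℕ × ℕ × ℕ) × (ℕ × ℕ × ℕ × ℕ) => z.2.2.2.1) :=
      Primrec.fst.comp (Primrec.snd.comp (Primrec.snd.comp Primrec.snd))
    have a4 : Primrec (fun z : List (ℕ × ℕ × ℕ × ℕ) × (ℕ × ℕ × ℕ × ℕ) => z.2.2.2.2) :=
      Primrec.snd.comp (Primrec.snd.comp (Primrec.snd.comp Primrec.snd))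
    exact Primrec.nat_add.comp (Primrec.nat_add.comp (Primrec.nat_add.comp a1 a2) a3) a4
  have h2 := Primrec.list_map (Primrec.id (α := List (ℕ × ℕ × ℕ × ℕ))) h1
  have h3 : Primrec (fun l : List ℕ => l.sum) := by
    have h4 : Primrec₂ (fun (_ : List ℕ) (z : ℕ × ℕ) => z.1 + z.2) :=
      Primrec.nat_add.comp (Primrec.fst.comp Primrec.snd) (Primrec.snd.comp Primrec.snd)
    have h5 := Primrec.list_foldr (Primrec.id (α := List ℕ)) (Primrec.const 0) h4
    exact h5.of_eq fun l => rfl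
  exact Primrec.succ.comp (h3.comp h2)

theorem primrec_frm : Primrec₂ frm := by
  unfold frm
  refine Primrec.list_flatMap (Primrec.list_range.comp Primrec.fst) ?_
  refine Primrec.list_map (Primrec.list_range.comp (Primrec.fst.comp Primrec.fst)) ?_
  have hW : Primrec (fun z : ((ℕ × ℕ) × ℕ) × ℕ => z.1.1.2) :=
    Primrec.snd.comp (Primrec.fst.comp Primrec.fst)
  have ha : Primrec (fun z : ((ℕ × ℕ) × ℕ) × ℕ => z.1.2) := Primrec.snd.comp Primrec.fst
  have hb : Primrec (fun z : ((ℕ × ℕ) × ℕ) × ℕ => z.2) := Primrec.snd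
  have h1 : ∀ {f g : ((ℕ × ℕ) × ℕ) × ℕ → ℕ}, Primrec f → Primrec g →
      Primrec (fun z => 2 * f z * z.1.1.2 + g z) := fun hf hg =>
    Primrec.nat_add.comp (Primrec.nat_mul.comp (Primrec.nat_mul.comp (Primrec.const 2) hf) hW) hg
  exact (h1 ha hb).pair (h1 hb ha)

theorem primrec_bd : Primrec bd := by
  have hr : Primrec (fun z : ℕ × List (ℕ × ℕ × ℕ × ℕ) × List (ℕ × ℕ × ℕ × ℕ) => z.1) :=
    Primrec.fst
  have hK : Primrec (fun z : ℕ × List (ℕ × ℕ × ℕ × ℕ) × List (ℕ × ℕ × ℕ × ℕ) =>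
    lbnd z.2.1) := primrec_lbnd.comp (Primrec.fst.comp Primrec.snd)
  have hL : Primrec (fun z : ℕ × List (ℕ × ℕ × ℕ × ℕ) × List (ℕ × ℕ × ℕ × ℕ) =>
      lbnd z.2.1 + lbnd z.2.1 + 4 * z.1 + 4) :=
    Primrec.nat_add.comp (Primrec.nat_add.comp (Primrec.nat_add.comp hK hK)
      (Primrec.nat_mul.comp (Primrec.const 4) hr)) (Primrec.const 4)
  have hW := Primrec.nat_add.comp hK hL
  unfold bd
  refine primrec_std.comp (Primrec.list_append.comp (primrec_frm.comp hL hW) ?_)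
  refine Primrec.list_map (Primrec.snd.comp Primrec.snd) ?_
  have hr' := hr.comp (Primrec.fst (α := ℕ × List (ℕ × ℕ × ℕ × ℕ) × List (ℕ × ℕ × ℕ × ℕ))
    (β := ℕ × ℕ × ℕ × ℕ))
  have hW' := hW.comp (Primrec.fst (α := ℕ × List (ℕ × ℕ × ℕ × ℕ) × List (ℕ × ℕ × ℕ × ℕ))
    (β := ℕ × ℕ × ℕ × ℕ))
  have hq : Primrec (fun z : (ℕ × List (ℕ × ℕ × ℕ × ℕ) × List (ℕ × ℕ × ℕ × ℕ)) ×
    (ℕ × ℕ × ℕ × ℕ) => z.2) := Primrec.snd
  have q1 := Primrec.fst.comp hq
  have q2 := Primrec.fst.comp (Primrec.snd.comp hq)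
  have q3 := Primrec.fst.comp (Primrec.snd.comp (Primrec.snd.comp hq))
  have q4 := Primrec.snd.comp (Primrec.snd.comp (Primrec.snd.comp hq))
  have e1 := Primrec.nat_add.comp (Primrec.nat_mul.comp (Primrec.nat_add.comp
    (Primrec.nat_mul.comp (Primrec.const 2) q1) (Primrec.const 1)) hW') q3
  have e2 := Primrec.nat_add.comp (Primrec.nat_mul.comp (Primrec.nat_add.comp
    (Primrec.nat_mul.comp (Primrec.const 2) (Primrec.nat_add.comp (Primrec.nat_add.comp hr'
      (Primrec.const 1)) q2)) (Primrec.const 1)) hW') q4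
  exact e1.pair e2

section rel

variable {α : Type} [DecidableEq α] (V : Finset α) (col row kx ky : α → ℕ)

/-- `θ` is an isomorphism of the boards `V \ Q` and `V \ Q'` -/
structure GI (Q Q' : Finset α) (θ : α → α) : Prop where
  bij : Set.BijOn θ ↑(V \ Q) ↑(V \ Q')
  hcol : ∀ x ∈ V \ Q, col (θ x) = col x
  hrow : ∀ x ∈ V \ Q, row (θ x) = row x
  hx : ∀ x ∈ V \ Q, ∀ y ∈ V \ Q, col x = col y → (kx x < kx y ↔ kx (θ x) < kx (θ y))
  hy : ∀ x ∈ V \ Q, ∀ y ∈ V \ Q, row x = row y → (ky x < ky y ↔ ky (θ x) < ky (θ y))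

/-- the quadruple of a point -/
def quad (x : α) : ℕ × ℕ × ℕ × ℕ := (col x, row x, kx x, ky x)

/-- the permutation of the board `V` with radius `r` after deleting `Q` -/
noncomputable def pd (r : ℕ) (Q : Finset α) : PPerm :=
  permOf (bd (r, V.toList.map (quad col row kx ky), (V \ Q).toList.map (quad col row kx ky)))

variable {V col row kx ky}

omit [DecidableEq α] in
theorem lbnd_eq (l : List α) (hl : l.Nodup) (hV : ∀ x, x ∈ l ↔ x ∈ V) :
    lbnd (l.map (quad col row kx ky)) = V.sum (fun x => col x + row x + kx x + ky x) + 1 := by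
  classical
  have h1 : V = l.toFinset := by
    ext x
    rw [List.mem_toFinset, hV]
  unfold lbnd
  rw [h1, List.sum_toFinset _ hl, List.map_map]
  rfl

variable (hc : ∀ x ∈ V, ∀ y ∈ V, col x = col y → kx x = kx y → x = y)
  (hr : ∀ x ∈ V, ∀ y ∈ V, row x = row y → ky x = ky y → x = y)

omit [DecidableEq α] in
theorem le_bnd {x : α} (hx : x ∈ V) : col x + row x + kx x + ky x <
    V.sum (fun x => col x + row x + kx x + ky x) + 1 :=
  Nat.lt_succ_of_le (Finset.single_le_sum (f := fun x => col x + row x + kx x + ky x)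
    (fun _ _ => Nat.zero_le _) hx)

/-- the board of `V` -/
def brd : Board {x // x ∈ V} where
  col x := col x
  row x := row x
  kx x := kx x
  ky x := ky x
  m := V.sum (fun x => col x + row x + kx x + ky x) + 1
  n := V.sum (fun x => col x + row x + kx x + ky x) + 1
  M := V.sum (fun x => col x + row x + kx x + ky x) + 1
  col_lt x := by have := le_bnd (col := col) (row := row) (kx := kx) (ky := ky) x.2; omega
  row_lt x := by have := le_bnd (col := col) (row := row) (kx := kx) (ky := ky) x.2; omega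
  kx_lt x := by have := le_bnd (col := col) (row := row) (kx := kx) (ky := ky) x.2; omega
  ky_lt x := by have := le_bnd (col := col) (row := row) (kx := kx) (ky := ky) x.2; omega
  col_inj x y h1 h2 := Subtype.ext (hc x x.2 y y.2 h1 h2)
  row_inj x y h1 h2 := Subtype.ext (hr x x.2 y y.2 h1 h2)

theorem bd_spec_aux (r : ℕ) (Q : Finset α) (l l' : List α) (hl : l.Nodup) (hl' : l'.Nodup)
    (hV : ∀ x, x ∈ l ↔ x ∈ V) (hQ : ∀ x, x ∈ l' ↔ x ∈ V \ Q) :
    IsPerm (bd (r, l.map (quad col row kx ky), l'.map (quad col row kx ky))) ∧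
    permOf (bd (r, l.map (quad col row kx ky), l'.map (quad col row kx ky))) =
      (brd hc hr).dl r ((Q.subtype (· ∈ V)).map ((brd hc hr).inX r)) := by
  classical
  set B := brd hc hr with hB
  have hK := lbnd_eq (col := col) (row := row) (kx := kx) (ky := ky) l hl hV
  have hL : lbnd (l.map (quad col row kx ky)) + lbnd (l.map (quad col row kx ky)) + 4 * r + 4 =
      B.L r := by
    rw [hK]
    rfl
  have hW : lbnd (l.map (quad col row kx ky)) + B.L r = B.W r := by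
    rw [hK]
    rfl
  unfold bd Board.dl del
  simp only
  rw [hL, hW]
  refine permOf_std _ _ _ _ _ _ ?_ ?_
  · have hW0 : 0 < B.W r := by
      unfold Board.W
      have : 0 < B.M := Nat.succ_pos _
      omega
    have hLW : B.L r ≤ B.W r := by
      unfold Board.W
      omega
    have hinj : ∀ x ∈ l', ∀ y ∈ l', pnt r (B.W r) (quad col row kx ky x) =
        pnt r (B.W r) (quad col row kx ky y) → x = y := by
      intro x hx y hy hxy
      have hxV := (Finset.mem_sdiff.1 ((hQ x).1 hx)).1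
      have hyV := (Finset.mem_sdiff.1 ((hQ y).1 hy)).1
      have h1 : B.KX r (Sum.inl ⟨x, hxV⟩) = B.KX r (Sum.inl ⟨y, hyV⟩) :=
        (Prod.mk.inj hxy).1
      have h2 := Board.KX_inj h1
      exact congrArg Subtype.val (Sum.inl_injective h2)
    have hmemf : ∀ q, q ∈ frm (B.L r) (B.W r) ↔ ∃ p : Fin (B.L r) × Fin (B.L r),
        q = (B.KX r (Sum.inr p), B.KY r (Sum.inr p)) := by
      intro q
      simp only [frm, List.mem_flatMap, List.mem_range, List.mem_map]
      constructor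
      · rintro ⟨a, ha, b, hb, rfl⟩
        exact ⟨(⟨a, ha⟩, ⟨b, hb⟩), rfl⟩
      · rintro ⟨⟨a, b⟩, rfl⟩
        exact ⟨a, a.2, b, b.2, rfl⟩
    rw [List.nodup_append']
    refine ⟨?_, ?_, ?_⟩
    · unfold frm
      rw [List.nodup_flatMap]
      refine ⟨?_, ?_⟩
      · intro a ha
        refine (List.nodup_range).map_on ?_
        intro b hb b' hb' hbb
        have h1 := (Prod.mk.inj hbb).1
        omega
      · refine (List.nodup_range (n := B.L r)).pairwise_of_forall_ne ?_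
        intro a ha a' ha' hne
        rw [Function.onFun, List.disjoint_left]
        intro q hq hq'
        obtain ⟨b, hb, rfl⟩ := List.mem_map.1 hq
        obtain ⟨b', hb', hbb⟩ := List.mem_map.1 hq'
        rw [List.mem_range] at ha ha' hb hb'
        have h1 := (Board.lex_eq (a := 2 * b') (c := 2 * b) (w := B.W r) (b := a') (d := a)
          (by omega) (by omega) (Prod.mk.inj hbb).2).2
        exact hne h1.symm
    · rw [List.map_map]
      exact hl'.map_on hinj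
    · rw [List.disjoint_left]
      intro q hq hq'
      obtain ⟨p, rfl⟩ := (hmemf q).1 hq
      rw [List.map_map] at hq'
      obtain ⟨x, hx, hxq⟩ := List.mem_map.1 hq'
      have hxV := (Finset.mem_sdiff.1 ((hQ x).1 hx)).1
      have h1 : B.KX r (Sum.inl ⟨x, hxV⟩) = B.KX r (Sum.inr p) := (Prod.mk.inj hxq).1
      cases Board.KX_inj h1
  · intro q
    rw [List.mem_append]
    constructor
    · rintro (hq | hq)
      · simp only [frm, List.mem_flatMap, List.mem_range, List.mem_map] at hq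
        obtain ⟨a, ha, b, hb, rfl⟩ := hq
        exact ⟨Sum.inr (⟨a, ha⟩, ⟨b, hb⟩), Finset.mem_compl.2 Board.inr_not_mem, rfl⟩
      · rw [List.map_map] at hq
        obtain ⟨x, hx, rfl⟩ := List.mem_map.1 hq
        obtain ⟨hxV, hxQ⟩ := Finset.mem_sdiff.1 ((hQ x).1 hx)
        refine ⟨Sum.inl ⟨x, hxV⟩, Finset.mem_compl.2 fun h => hxQ ?_, rfl⟩
        exact Finset.mem_subtype.1 (Board.mem_map_inX.1 h)
    · rintro ⟨z | ⟨a, b⟩, hz, rfl⟩
      · right
        rw [List.map_map]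
        refine List.mem_map.2 ⟨z, (hQ z).2 (Finset.mem_sdiff.2 ⟨z.2, fun h => ?_⟩), rfl⟩
        exact Finset.mem_compl.1 hz (Board.mem_map_inX.2 (Finset.mem_subtype.2 h))
      · left
        simp only [frm, List.mem_flatMap, List.mem_range, List.mem_map]
        exact ⟨a, a.2, b, b.2, rfl⟩

include hc hr in
/-- the definition of `pd` by a pattern -/
theorem pd_eq_dl (r : ℕ) (Q : Finset α) : pd V col row kx ky r Q =
    (brd hc hr).dl r ((Q.subtype (· ∈ V)).map ((brd hc hr).inX r)) :=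
  (bd_spec_aux hc hr r Q V.toList (V \ Q).toList V.nodup_toList (V \ Q).nodup_toList
    (fun _ => Finset.mem_toList) (fun _ => Finset.mem_toList)).2

include hc hr in
/-- **Computation of the permutation of a board.** -/
theorem bd_spec (r : ℕ) (Q : Finset α) (l l' : List α) (hl : l.Nodup) (hl' : l'.Nodup)
    (hV : ∀ x, x ∈ l ↔ x ∈ V) (hQ : ∀ x, x ∈ l' ↔ x ∈ V \ Q) :
    IsPerm (bd (r, l.map (quad col row kx ky), l'.map (quad col row kx ky))) ∧
    permOf (bd (r, l.map (quad col row kx ky), l'.map (quad col row kx ky))) =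
      pd V col row kx ky r Q := by
  rw [pd_eq_dl hc hr]
  exact bd_spec_aux hc hr r Q l l' hl hl' hV hQ

theorem card_subtype_of {Q : Finset α} (hQ : Q ⊆ V) : (Q.subtype (· ∈ V)).card = Q.card := by
  rw [Finset.card_subtype, Finset.filter_true_of_mem hQ]

include hc hr in
/-- the length of the permutation -/
theorem pd_n (r : ℕ) {Q : Finset α} (hQ : Q ⊆ V) :
    (pd V col row kx ky r Q).n + Q.card = (pd V col row kx ky r ∅).n := by
  rw [pd_eq_dl hc hr, pd_eq_dl hc hr, del_n, del_n, Finset.card_map, Finset.card_map,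
    card_subtype_of hQ]
  have h1 : ((∅ : Finset α).subtype (· ∈ V)).card = 0 := by
    rw [card_subtype_of (Finset.empty_subset V), Finset.card_empty]
  rw [h1]
  have h2 : Q.card ≤ Fintype.card ((brd hc hr).Pt r) := by
    rw [← card_subtype_of hQ, ← Finset.card_map ((brd hc hr).inX r)]
    exact Finset.card_le_univ _
  omega

include hc hr in
theorem pd_anti (r : ℕ) {Q Q' : Finset α} (h : Q ⊆ Q') :
    pd V col row kx ky r Q' ≤ pd V col row kx ky r Q := by
  rw [pd_eq_dl hc hr, pd_eq_dl hc hr]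
  refine del_anti _ _ _ _ (Finset.map_subset_map.2 ?_)
  intro x hx
  exact Finset.mem_subtype.2 (h (Finset.mem_subtype.1 hx))

theorem gIso_iff {Q Q' : Finset α} :
    GIso (brd hc hr) (Q.subtype (· ∈ V)) (Q'.subtype (· ∈ V)) ↔
      ∃ θ, GI V col row kx ky Q Q' θ := by
  classical
  constructor
  · rintro ⟨φ, h1, h2, h3, h4⟩
    have hm : ∀ {x}, x ∈ V \ Q → ∃ hx : x ∈ V, (⟨x, hx⟩ : {x // x ∈ V}) ∉
        Q.subtype (· ∈ V) := by
      intro x hx
      obtain ⟨ha, hb⟩ := Finset.mem_sdiff.1 hx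
      exact ⟨ha, fun h => hb (Finset.mem_subtype.1 h)⟩
    have hm' : ∀ {x}, x ∈ V \ Q' → ∃ hx : x ∈ V, (⟨x, hx⟩ : {x // x ∈ V}) ∉
        Q'.subtype (· ∈ V) := by
      intro x hx
      obtain ⟨ha, hb⟩ := Finset.mem_sdiff.1 hx
      exact ⟨ha, fun h => hb (Finset.mem_subtype.1 h)⟩
    let θ : α → α := fun x => if h : x ∈ V \ Q then
      ((φ ⟨⟨x, (hm h).1⟩, (hm h).2⟩ : {x // x ∈ V}) : α) else x
    have hθ : ∀ x (h : x ∈ V \ Q), θ x = ((φ ⟨⟨x, (hm h).1⟩, (hm h).2⟩ : {x // x ∈ V}) : α) :=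
      fun x h => dif_pos h
    refine ⟨θ, ⟨?_, ?_, ?_⟩, ?_, ?_, ?_, ?_⟩
    · intro x hx
      rw [Finset.mem_coe] at hx ⊢
      rw [hθ x hx]
      refine Finset.mem_sdiff.2 ⟨(φ _).1.2, fun h => (φ ⟨⟨x, (hm hx).1⟩, (hm hx).2⟩).2 ?_⟩
      exact Finset.mem_subtype.2 h
    · intro x hx y hy hxy
      rw [Finset.mem_coe] at hx hy
      rw [hθ x hx, hθ y hy] at hxy
      have h5 := φ.injective (Subtype.ext (Subtype.ext hxy))
      exact congrArg (fun z : {x // x ∉ Q.subtype (· ∈ V)} => ((z : {x // x ∈ V}) : α)) h5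
    · intro y hy
      rw [Finset.mem_coe] at hy
      obtain ⟨hy1, hy2⟩ := hm' hy
      obtain ⟨x, hx⟩ := φ.surjective ⟨⟨y, hy1⟩, hy2⟩
      have hxm : (x : {x // x ∈ V}).1 ∈ V \ Q := Finset.mem_sdiff.2 ⟨x.1.2, fun h =>
        x.2 (Finset.mem_subtype.2 h)⟩
      refine ⟨(x : {x // x ∈ V}).1, hxm, ?_⟩
      rw [hθ _ hxm]
      have h6 : (⟨⟨(x : {x // x ∈ V}).1, (hm hxm).1⟩, (hm hxm).2⟩ :
        {x // x ∉ Q.subtype (· ∈ V)}) = x := rfl
      rw [h6, hx]
    · intro x hx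
      rw [hθ x hx]
      exact h1 ⟨⟨x, (hm hx).1⟩, (hm hx).2⟩
    · intro x hx
      rw [hθ x hx]
      exact h2 ⟨⟨x, (hm hx).1⟩, (hm hx).2⟩
    · intro x hx y hy
      rw [hθ x hx, hθ y hy]
      exact h3 ⟨⟨x, (hm hx).1⟩, (hm hx).2⟩ ⟨⟨y, (hm hy).1⟩, (hm hy).2⟩
    · intro x hx y hy
      rw [hθ x hx, hθ y hy]
      exact h4 ⟨⟨x, (hm hx).1⟩, (hm hx).2⟩ ⟨⟨y, (hm hy).1⟩, (hm hy).2⟩
  · rintro ⟨θ, ⟨hm, hi, hs⟩, h1, h2, h3, h4⟩
    have hin : ∀ x : {x // x ∉ Q.subtype (· ∈ V)}, ((x : {x // x ∈ V}) : α) ∈ V \ Q :=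
      fun x => Finset.mem_sdiff.2 ⟨x.1.2, fun h => x.2 (Finset.mem_subtype.2 h)⟩
    have hout : ∀ x : {x // x ∉ Q.subtype (· ∈ V)},
        θ ((x : {x // x ∈ V}) : α) ∈ V \ Q' := fun x => hm (hin x)
    let f : {x // x ∉ Q.subtype (· ∈ V)} → {x // x ∉ Q'.subtype (· ∈ V)} := fun x =>
      ⟨⟨θ ((x : {x // x ∈ V}) : α), (Finset.mem_sdiff.1 (hout x)).1⟩, fun h =>
        (Finset.mem_sdiff.1 (hout x)).2 (Finset.mem_subtype.1 h)⟩
    have hf : Function.Bijective f := by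
      constructor
      · intro x y hxy
        have h5 : θ ((x : {x // x ∈ V}) : α) = θ ((y : {x // x ∈ V}) : α) :=
          congrArg (fun z : {x // x ∉ Q'.subtype (· ∈ V)} => ((z : {x // x ∈ V}) : α)) hxy
        exact Subtype.ext (Subtype.ext (hi (hin x) (hin y) h5))
      · intro y
        have hy : ((y : {x // x ∈ V}) : α) ∈ ((V \ Q' : Finset α) : Set α) :=
          Finset.mem_coe.2 (Finset.mem_sdiff.2 ⟨y.1.2, fun h => y.2 (Finset.mem_subtype.2 h)⟩)
        obtain ⟨x, hx, hxy⟩ := hs hy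
        obtain ⟨hxV, hxQ⟩ := Finset.mem_sdiff.1 (Finset.mem_coe.1 hx)
        exact ⟨⟨⟨x, hxV⟩, fun h => hxQ (Finset.mem_subtype.1 h)⟩, Subtype.ext (Subtype.ext hxy)⟩
    refine ⟨Equiv.ofBijective f hf, ?_, ?_, ?_, ?_⟩
    · intro x
      exact h1 _ (hin x)
    · intro x
      exact h2 _ (hin x)
    · intro x y
      exact h3 _ (hin x) _ (hin y)
    · intro x y
      exact h4 _ (hin x) _ (hin y)

theorem subtype_inj {Q Q' : Finset α} (hQ : Q ⊆ V) (hQ' : Q' ⊆ V)
    (h : Q.subtype (· ∈ V) = Q'.subtype (· ∈ V)) : Q = Q' := by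
  ext x
  constructor
  · intro hx
    have h1 : (⟨x, hQ hx⟩ : {x // x ∈ V}) ∈ Q.subtype (· ∈ V) := Finset.mem_subtype.2 hx
    rw [h] at h1
    exact Finset.mem_subtype.1 h1
  · intro hx
    have h1 : (⟨x, hQ' hx⟩ : {x // x ∈ V}) ∈ Q'.subtype (· ∈ V) := Finset.mem_subtype.2 hx
    rw [← h] at h1
    exact Finset.mem_subtype.1 h1

include hc hr in
/-- **The board theorem for finite sets.** -/
theorem pd_eq_iff {r : ℕ} {Q Q' : Finset α} (hQr : Q.card ≤ r) (hQ : Q ⊆ V) :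
    pd V col row kx ky r Q = pd V col row kx ky r Q' ↔ ∃ θ, GI V col row kx ky Q Q' θ := by
  rw [← gIso_iff hc hr, pd_eq_dl hc hr, pd_eq_dl hc hr]
  constructor
  · intro h
    obtain ⟨Q'', h1, h2⟩ := (Board.board_iff (Q.subtype (· ∈ V))
      (by rw [card_subtype_of hQ]; exact hQr) _).1 h.symm
    have h3 : Q'.subtype (· ∈ V) = Q'' := Finset.map_injective _ h1
    rw [h3]
    exact h2
  · intro h
    exact Board.extend_iso h

include hc hr in
/-- every pattern between `pd D` and `pd Q` comes from a set of points containing `Q` -/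
theorem exists_pd {r : ℕ} {D Q : Finset α} {τ : PPerm} (hDr : D.card ≤ r) (hD : D ⊆ V)
    (hQ : Q ⊆ V) (h1 : pd V col row kx ky r D ≤ τ) (h2 : τ ≤ pd V col row kx ky r Q) :
    ∃ Q', Q ⊆ Q' ∧ Q' ⊆ V ∧ pd V col row kx ky r Q' = τ := by
  classical
  rw [pd_eq_dl hc hr] at h1 h2
  obtain ⟨U, hU, rfl⟩ := exists_del _ _ _ _ h2
  obtain ⟨U', hU', h3⟩ := exists_del _ _ _ _ h1
  obtain ⟨Q'', h4, -⟩ := (Board.board_iff (D.subtype (· ∈ V))
    (by rw [card_subtype_of hD]; exact hDr) _).1 h3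
  have h5 : ∀ z ∈ U, ∃ x : {x // x ∈ V}, z = Sum.inl x := by
    intro z hz
    have h6 := hU' hz
    rw [h4] at h6
    obtain ⟨x, -, rfl⟩ := Finset.mem_map.1 h6
    exact ⟨x, rfl⟩
  refine ⟨V.filter (fun x => ∃ hx : x ∈ V, Sum.inl ⟨x, hx⟩ ∈ U), ?_, Finset.filter_subset _ _, ?_⟩
  · intro x hx
    refine Finset.mem_filter.2 ⟨hQ hx, hQ hx, hU ?_⟩
    exact Board.mem_map_inX.2 (Finset.mem_subtype.2 hx)
  · rw [pd_eq_dl hc hr]
    congr 1
    ext z
    constructor
    · intro hz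
      obtain ⟨x, hx, rfl⟩ := Finset.mem_map.1 hz
      obtain ⟨-, hx', h6⟩ := Finset.mem_filter.1 (Finset.mem_subtype.1 hx)
      exact h6
    · intro hz
      obtain ⟨x, rfl⟩ := h5 z hz
      refine Board.mem_map_inX.2 (Finset.mem_subtype.2 (Finset.mem_filter.2 ⟨x.2, x.2, hz⟩))

end rel

end PP
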