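import Mathlib
import Pool.Agent.PP.Interval
import Pool.Agent.PP.Std
import Pool.Agent.CT.Final
import Pool.Agent.NB.Core

/-!
# From deletion sets to undecidability

The open interval between two permutations given as lists; the reduction of the
undecidability theorem to a computable construction of permutations with prescribed
deletion sets.
-/

namespace PP

open Function CT
open scoped ContinuousMap

/-- the geometric realisation of the order complex of the open interval -/
abbrev Delta (σ π : PPerm) : Type := Rz (OC (Set.Ioo σ π))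

section

variable {X α β ι : Type} [Fintype X] [DecidableEq X] [LinearOrder α] [LinearOrder β]
  (kx : X → α) (ky : X → β) (hx : Injective kx) (hy : Injective ky)

/-- the wedge property of an interval whose deletion sets have a given nerve -/
theorem interval_wedge (D : ι → Finset X) {σ : PPerm} {N : Set (Finset ι)}
    (hD : ∀ Q : Finset X, del kx ky hx hy Q = σ ↔ ∃ s, (D s).Nonempty ∧ D s = Q)
    (hpt : ∀ τ, σ < τ → τ < del kx ky hx hy ∅ →
      ∃ p, ∀ Q : Finset X, del kx ky hx hy Q = τ → p ∈ Q)
    (hfin : {s | (D s).Nonempty}.Finite) (hr : σ.n + 3 ≤ Fintype.card X)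
    (hfree : ∀ s, (D s).Nonempty → ∃ u ∈ D s, ∀ t, (D s).erase u ⊆ D t → t = s)
    (hN : nerve D = N) :
    (IsWedge (Rz N) ∧ PathConnectedSpace (Rz N) → IsWedge (Delta σ (del kx ky hx hy ∅))) ∧
      (HasZ2 (Rz N) → ¬ IsWedge (Delta σ (del kx ky hx hy ∅))) := by
  obtain ⟨e⟩ := interval_equiv kx ky hx hy D hD hpt
  have hcard : ∀ s, (D s).Nonempty → (D s).card = Fintype.card X - σ.n := by
    intro s hs
    have h := (hD (D s)).2 ⟨s, hs, rfl⟩
    have h1 := congrArg PPerm.n h
    rw [del_n] at h1
    have h2 : (D s).card ≤ Fintype.card X := Finset.card_le_univ _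
    omega
  have hr' : 3 ≤ Fintype.card X - σ.n := by omega
  constructor
  · rintro ⟨h1, h2⟩
    exact isWedge_of_equiv e (skel_wedge hfin _ hr' hcard hfree hN h1 h2)
  · intro h1 h2
    exact skel_not_wedge hfin _ hr' hcard hfree hN h1 (isWedge_of_equiv e.symm h2)

end

/-- what a construction of permutations from lists of alternating words has to provide -/
def Realises (s p : List (List ℕ) → List ℕ) : Prop :=
  ∀ T, GoodT T → IsPerm (s T) ∧ IsPerm (p T) ∧ permOf (s T) ≤ permOf (p T) ∧
    (IsWedge (Rz (NCs T)) ∧ PathConnectedSpace (Rz (NCs T)) →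
      IsWedge (Delta (permOf (s T)) (permOf (p T)))) ∧
    (HasZ2 (Rz (NCs T)) → ¬ IsWedge (Delta (permOf (s T)) (permOf (p T))))

/-- primitive recursive sequences of permutations for which the wedge property is
equivalent to halting -/
theorem halting_family {s p : List (List ℕ) → List ℕ} (hs : Primrec s) (hp : Primrec p)
    (H : Realises s p) : ∃ s' p' : ℕ → List ℕ, Primrec s' ∧ Primrec p' ∧
    ∀ n, IsPerm (s' n) ∧ IsPerm (p' n) ∧ permOf (s' n) ≤ permOf (p' n) ∧
      (IsWedge (Delta (permOf (s' n)) (permOf (p' n))) ↔ (NB.hf n).Dom) := by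
  obtain ⟨T, h1, h2, -, h4, h5⟩ := star_family_strong
  refine ⟨fun n => s (T n), fun n => p (T n), hs.comp h1, hp.comp h1, fun n => ?_⟩
  obtain ⟨a, b, c, d, e⟩ := H (T n) (h2 n)
  refine ⟨a, b, c, fun h => ?_, fun h => d (h4 n h)⟩
  by_contra hn
  exact e (h5 n hn) h

/-- **Undecidability.**  No computable function decides for all permutations `σ ≤ π`
whether the order complex of the open interval is a wedge of spheres. -/
theorem undecidable {s p : List (List ℕ) → List ℕ} (hs : Primrec s) (hp : Primrec p)
    (H : Realises s p) : ¬ ∃ f : List ℕ × List ℕ → Bool, Computable f ∧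
    ∀ σ π : List ℕ, IsPerm σ → IsPerm π → permOf σ ≤ permOf π →
      (f (σ, π) = true ↔ IsWedge (Delta (permOf σ) (permOf π))) := by
  rintro ⟨f, hf, h⟩
  obtain ⟨s', p', h1, h2, h3⟩ := halting_family hs hp H
  refine NB.hf_not_computable ?_
  have h4 : Computable (fun n => f (s' n, p' n)) := hf.comp (h1.pair h2).to_comp
  refine ComputablePred.computable_iff.2 ⟨_, h4, ?_⟩
  funext n
  obtain ⟨a, b, c, d⟩ := h3 n
  rw [h _ _ a b c]
  exact propext d.symm

/-- The set of pairs `σ ≤ π` for which the order complex of the open interval is not a wedge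
of spheres is not recursively enumerable. -/
theorem not_re {s p : List (List ℕ) → List ℕ} (hs : Primrec s) (hp : Primrec p)
    (H : Realises s p) : ¬ REPred (fun q : List ℕ × List ℕ =>
      IsPerm q.1 ∧ IsPerm q.2 ∧ permOf q.1 ≤ permOf q.2 ∧
        ¬ IsWedge (Delta (permOf q.1) (permOf q.2))) := by
  intro h
  obtain ⟨s', p', h1, h2, h3⟩ := halting_family hs hp H
  refine NB.hf_not_re ?_
  have h4 : REPred (fun n => (fun q : List ℕ × List ℕ =>
      IsPerm q.1 ∧ IsPerm q.2 ∧ permOf q.1 ≤ permOf q.2 ∧
        ¬ IsWedge (Delta (permOf q.1) (permOf q.2))) (s' n, p' n)) :=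
    Partrec.comp h (h1.pair h2).to_comp
  refine h4.of_eq fun n => ?_
  obtain ⟨a, b, c, d⟩ := h3 n
  constructor
  · rintro ⟨-, -, -, h5⟩ h6
    exact h5 (d.2 h6)
  · intro h5
    exact ⟨a, b, c, fun h6 => h5 (d.1 h6)⟩

end PP
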