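import Mathlib
import Pool.Agent.PP.Std
import Pool.Agent.PP.Undec

/-!
# Permutations as words

A permutation of length `n` is a word in which each of `1, ..., n` appears exactly once; the
poset of these words, ordered by pattern containment, is isomorphic to the poset `PPerm`.
-/

namespace PP

open Function CT
open scoped ContinuousMap

/-- a permutation of length `n`: a word in which each of `1, ..., n` appears exactly once -/
def IsPermWord (w : List ℕ) : Prop := w.Perm (List.range' 1 w.length)

/-- `v` is contained in `w`: some subsequence of `w` has the same length as `v` and its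
entries are in the same relative order as the entries of `v` -/
def Contained (v w : List ℕ) : Prop :=
  ∃ s : List ℕ, s.Sublist w ∧ s.length = v.length ∧
    ∀ i j : ℕ, i < v.length → j < v.length →
      (s.getD i 0 < s.getD j 0 ↔ v.getD i 0 < v.getD j 0)

/-- the set of all finite permutations -/
def PermWord : Type := {w : List ℕ // IsPermWord w}

theorem isPerm_pred {w : List ℕ} (h : IsPermWord w) : IsPerm (w.map (· - 1)) := by
  have h1 := h.map (· - 1)
  unfold IsPerm
  rw [List.length_map]
  have h2 : (List.range' 1 w.length).map (· - 1) = List.range w.length := by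
    rw [List.range'_eq_map_range, List.map_map]
    conv_rhs => rw [← List.map_id (List.range w.length)]
    refine List.map_congr_left fun a _ => ?_
    simp
  rw [h2] at h1
  exact h1

theorem word_pos {w : List ℕ} (h : IsPermWord w) {a : ℕ} (ha : a ∈ w) : 1 ≤ a := by
  have h1 := (List.Perm.mem_iff h).1 ha
  rw [List.mem_range'_1] at h1
  exact h1.1

/-- the permutation of a word -/
noncomputable def toP (w : PermWord) : PPerm := permOf (w.1.map (· - 1))

theorem ofFn_permOf {l : List ℕ} (h : IsPerm l) :
    List.ofFn (fun i => ((permOf l).p i : ℕ)) = l := by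
  unfold permOf
  rw [dif_pos h]
  exact List.ofFn_get l

theorem toP_inj : Injective toP := by
  intro v w h
  have h1 := ofFn_permOf (isPerm_pred v.2)
  have h2 := ofFn_permOf (isPerm_pred w.2)
  have h3 : (v.1.map (· - 1)) = w.1.map (· - 1) := by
    rw [← h1, ← h2]
    change List.ofFn (fun i => ((toP v).p i : ℕ)) = List.ofFn (fun i => ((toP w).p i : ℕ))
    rw [h]
  have h4 : ∀ u : PermWord, (u.1.map (· - 1)).map (· + 1) = u.1 := by
    intro u
    rw [List.map_map]
    conv_rhs => rw [← List.map_id u.1]
    refine List.map_congr_left fun a ha => ?_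
    have := word_pos u.2 ha
    simp only [comp_apply, id]
    omega
  refine Subtype.ext ?_
  rw [← h4 v, ← h4 w, h3]

/-- the word of a list of values -/
theorem isPermWord_succ {l : List ℕ} (h : IsPerm l) : IsPermWord (l.map (· + 1)) := by
  unfold IsPermWord
  rw [List.length_map, List.range'_eq_map_range]
  have h1 := List.Perm.map (· + 1) h
  refine h1.trans ?_
  rw [List.map_congr_left (fun a _ => Nat.add_comm a 1)]

theorem toP_succ {l : List ℕ} (h : IsPerm l) :
    toP ⟨l.map (· + 1), isPermWord_succ h⟩ = permOf l := by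
  unfold toP
  congr 1
  rw [List.map_map]
  conv_rhs => rw [← List.map_id l]
  exact List.map_congr_left fun a _ => by simp

theorem toP_surj : Surjective toP := by
  intro π
  obtain ⟨h1, h2⟩ := permOf_eq π (List.ofFn (fun i => (π.p i : ℕ))) List.length_ofFn (by
    intro i hi
    rw [List.getElem_ofFn])
  exact ⟨⟨_, isPermWord_succ h1⟩, (toP_succ h1).trans h2⟩

theorem permOf_le_iff {l l' : List ℕ} (h : IsPerm l) (h' : IsPerm l') :
    permOf l ≤ permOf l' ↔ ∃ f : Fin l.length → Fin l'.length, StrictMono f ∧
      ∀ i j, l.get i < l.get j → l'.get (f i) < l'.get (f j) := by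
  unfold permOf
  rw [dif_pos h, dif_pos h']
  exact Iff.rfl

theorem getD_get {l : List ℕ} (i : Fin l.length) : l.getD i 0 = l.get i := by
  rw [List.getD_eq_getElem _ _ i.2]
  rfl

theorem contained_iff (v w : PermWord) : Contained v.1 w.1 ↔ toP v ≤ toP w := by
  unfold toP
  rw [permOf_le_iff (isPerm_pred v.2) (isPerm_pred w.2)]
  have hv : (v.1.map (· - 1)).length = v.1.length := List.length_map _
  have hw : (w.1.map (· - 1)).length = w.1.length := List.length_map _
  have hnd : v.1.Nodup := (List.Perm.nodup_iff v.2).2 (List.nodup_range')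
  have hgv : ∀ i (hi : i < v.1.length), (v.1.map (· - 1)).get ⟨i, hv ▸ hi⟩ + 1 = v.1.getD i 0 := by
    intro i hi
    rw [List.getD_eq_getElem _ _ hi, List.get_eq_getElem, List.getElem_map]
    exact Nat.sub_add_cancel (word_pos v.2 (List.getElem_mem hi))
  have hgw : ∀ i (hi : i < w.1.length), (w.1.map (· - 1)).get ⟨i, hw ▸ hi⟩ + 1 = w.1.getD i 0 := by
    intro i hi
    rw [List.getD_eq_getElem _ _ hi, List.get_eq_getElem, List.getElem_map]
    exact Nat.sub_add_cancel (word_pos w.2 (List.getElem_mem hi))
  constructor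
  · rintro ⟨s, h1, h2, h3⟩
    obtain ⟨f, hf⟩ := List.sublist_iff_exists_fin_orderEmbedding_get_eq.1 h1
    refine ⟨fun i => Fin.cast hw.symm (f (Fin.cast (hv.trans h2.symm) i)), ?_, ?_⟩
    · intro i j hij
      exact f.strictMono hij
    · intro i j hij
      have hi : (i : ℕ) < v.1.length := hv ▸ i.2
      have hj : (j : ℕ) < v.1.length := hv ▸ j.2
      have h4 := (h3 i j hi hj).2 (by
        rw [← hgv i hi, ← hgv j hj]
        exact Nat.succ_lt_succ hij)
      have h5 : ∀ k (hk : k < s.length), s.getD k 0 = w.1.getD (f ⟨k, hk⟩) 0 := by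
        intro k hk
        rw [getD_get (l := w.1) (f ⟨k, hk⟩), ← hf ⟨k, hk⟩, List.getD_eq_getElem _ _ hk]
        rfl
      rw [h5 i (h2 ▸ hi), h5 j (h2 ▸ hj), ← hgw _ (f _).2, ← hgw _ (f _).2] at h4
      exact Nat.lt_of_succ_lt_succ h4
  · rintro ⟨f, h1, h2⟩
    let g : Fin v.1.length → Fin w.1.length := fun i => Fin.cast hw (f (Fin.cast hv.symm i))
    have hg : StrictMono g := fun i j hij => h1 hij
    have hgg : ∀ i j : Fin v.1.length, v.1.getD i 0 < v.1.getD j 0 →
        w.1.getD (g i) 0 < w.1.getD (g j) 0 := by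
      intro i j hij
      rw [← hgv i i.2, ← hgv j j.2] at hij
      rw [← hgw _ (g i).2, ← hgw _ (g j).2]
      exact Nat.succ_lt_succ (h2 _ _ (Nat.lt_of_succ_lt_succ hij))
    refine ⟨List.ofFn (fun i => w.1.get (g i)), ?_, List.length_ofFn, ?_⟩
    · rw [List.sublist_iff_exists_fin_orderEmbedding_get_eq]
      refine ⟨OrderEmbedding.ofStrictMono (fun i => g (Fin.cast List.length_ofFn i))
        (fun i j hij => hg hij), ?_⟩
      intro i
      rw [List.get_ofFn]
      rfl
    · intro i j hi hj
      have h5 : ∀ k (hk : k < v.1.length), (List.ofFn (fun i => w.1.get (g i))).getD k 0 =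
          w.1.getD (g ⟨k, hk⟩) 0 := by
        intro k hk
        rw [List.getD_eq_getElem _ _ (by rw [List.length_ofFn]; exact hk), List.getElem_ofFn,
          getD_get (g ⟨k, hk⟩)]
      rw [h5 i hi, h5 j hj]
      constructor
      · intro h6
        rcases lt_trichotomy (v.1.getD i 0) (v.1.getD j 0) with h7 | h7 | h7
        · exact h7
        · exfalso
          rw [List.getD_eq_getElem _ _ hi, List.getD_eq_getElem _ _ hj,
            List.Nodup.getElem_inj_iff hnd] at h7
          subst h7
          exact lt_irrefl _ h6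
        · exact absurd (hgg ⟨j, hj⟩ ⟨i, hi⟩ h7) (lt_asymm h6)
      · intro h6
        exact hgg ⟨i, hi⟩ ⟨j, hj⟩ h6

instance : PartialOrder PermWord where
  le σ π := Contained σ.1 π.1
  le_refl σ := (contained_iff σ σ).2 le_rfl
  le_trans σ π τ h h' := (contained_iff σ τ).2
    (((contained_iff σ π).1 h).trans ((contained_iff π τ).1 h'))
  le_antisymm σ π h h' := toP_inj
    (le_antisymm ((contained_iff σ π).1 h) ((contained_iff π σ).1 h'))

/-- the poset of words is isomorphic to the poset of permutations -/
noncomputable def toPe : PermWord ≃o PPerm where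
  toEquiv := Equiv.ofBijective toP ⟨toP_inj, toP_surj⟩
  map_rel_iff' := by
    intro a b
    exact (contained_iff a b).symm

/-- isomorphic posets have homeomorphic order complexes -/
theorem rz_oc_congr {P Q : Type} [PartialOrder P] [PartialOrder Q] (e : P ≃o Q) (A : Set P)
    (B : Set Q) (h : ∀ p, p ∈ A ↔ e p ∈ B) : Nonempty (Rz (OC A) ≃ₜ Rz (OC B)) := by
  classical
  have key : ∀ {P Q : Type} [PartialOrder P] [PartialOrder Q] (e : P ≃o Q) (A : Set P)
      (B : Set Q) (_ : ∀ p, p ∈ A ↔ e p ∈ B) (x : P → ℝ), x ∈ Rz (OC A) →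
      (fun q => x (e.symm q)) ∈ Rz (OC B) := by
    intro P Q _ _ e A B h x hx
    obtain ⟨s, ⟨h1, h2, h3⟩, h4, h5, h6⟩ := hx
    refine ⟨s.map e.toEquiv.toEmbedding, ⟨?_, ?_, ?_⟩, ?_, ?_, ?_⟩
    · exact h1.map
    · intro q hq
      obtain ⟨p, hp, rfl⟩ := Finset.mem_map.1 (Finset.mem_coe.1 hq)
      exact (h p).1 (h2 hp)
    · intro q hq q' hq' hne
      obtain ⟨p, hp, rfl⟩ := Finset.mem_map.1 (Finset.mem_coe.1 hq)
      obtain ⟨p', hp', rfl⟩ := Finset.mem_map.1 (Finset.mem_coe.1 hq')
      have hpp : p ≠ p' := fun h => hne (congrArg _ h)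
      rcases h3 hp hp' hpp with h7 | h7
      · exact Or.inl (e.le_iff_le.2 h7)
      · exact Or.inr (e.le_iff_le.2 h7)
    · intro q hq
      obtain ⟨p, hp, rfl⟩ := Finset.mem_map.1 hq
      have h8 : e.symm (e p) = p := e.symm_apply_apply p
      change 0 < x (e.symm (e p))
      rw [h8]
      exact h4 p hp
    · intro q hq
      refine h5 _ fun h8 => hq (Finset.mem_map.2 ⟨e.symm q, h8, ?_⟩)
      exact e.apply_symm_apply q
    · rw [Finset.sum_map, ← h6]
      refine Finset.sum_congr rfl fun p _ => ?_
      exact congrArg x (e.symm_apply_apply p)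
  refine ⟨⟨⟨fun x => ⟨fun q => x.1 (e.symm q), key e A B h x.1 x.2⟩,
    fun y => ⟨fun p => y.1 (e p), key e.symm B A (fun q => ?_) y.1 y.2⟩, ?_, ?_⟩, ?_, ?_⟩⟩
  · rw [h (e.symm q), e.apply_symm_apply]
  · intro x
    refine Subtype.ext (funext fun p => ?_)
    exact congrArg x.1 (e.symm_apply_apply p)
  · intro y
    refine Subtype.ext (funext fun q => ?_)
    exact congrArg y.1 (e.apply_symm_apply q)
  · refine Continuous.subtype_mk (continuous_pi fun q => ?_) _
    exact (continuous_apply _).comp continuous_subtype_val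
  · refine Continuous.subtype_mk (continuous_pi fun q => ?_) _
    exact (continuous_apply _).comp continuous_subtype_val

end PP
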